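import Mathlib.Tactic.Linarith.Frontend
import Mathlib.Tactic.NormNum.Ineq
import Mathlib.Algebra.BigOperators.Ring.Finset
import Mathlib.Algebra.Order.BigOperators.Group.Finset
import Mathlib.CategoryTheory.Category.Init
import Mathlib.Data.Int.ConditionallyCompleteOrder
import Mathlib.Data.Int.Star
import Mathlib.Algebra.Order.Ring.Star
import Mathlib.Tactic.Algebra.Basic

/-! Query systems, hash labellings of a graph, and the extraction argument. -/

namespace Pool.Agent.MP_1a6d78_lc.Orc

open Finset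

lemma fix_unique {G β : Type} (r : G → ℕ) (F : (G → β) → G → β)
    (hF : ∀ v v' g, (∀ h, r h < r g → v h = v' h) → F v g = F v' g)
    {v v' : G → β} (hv : ∀ g, v g = F v g) (hv' : ∀ g, v' g = F v' g) : v = v' := by
  have : ∀ m g, r g < m → v g = v' g := by
    intro m
    induction m with
    | zero => intro g hg; omega
    | succ m ih =>
      intro g hg
      rw [hv g, hv' g]
      exact hF _ _ _ fun h hh => ih h (by omega)
  funext g
  exact this _ g (Nat.lt_succ_self _)

lemma fix_exists {G β : Type} [Inhabited β] (r : G → ℕ) (F : (G → β) → G → β)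
    (hF : ∀ v v' g, (∀ h, r h < r g → v h = v' h) → F v g = F v' g) :
    ∃ v : G → β, ∀ g, v g = F v g := by
  let it : ℕ → G → β := fun k => F^[k] (fun _ => default)
  have hit : ∀ k, it (k + 1) = F (it k) := fun k => Function.iterate_succ_apply' _ _ _
  have key : ∀ m g, r g < m → ∀ k k', r g < k → r g < k' → it k g = it k' g := by
    intro m
    induction m with
    | zero => intro g hg; omega
    | succ m ih =>
      intro g hg k k' hk hk'
      obtain ⟨j, rfl⟩ : ∃ j, k = j + 1 := ⟨k - 1, by omega⟩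
      obtain ⟨j', rfl⟩ : ∃ j, k' = j + 1 := ⟨k' - 1, by omega⟩
      rw [hit, hit]
      exact hF _ _ _ fun h hh => ih h (by omega) _ _ (by omega) (by omega)
  refine ⟨fun g => it (r g + 1) g, fun g => ?_⟩
  show it (r g + 1) g = _
  rw [hit]
  exact hF _ _ _ fun h hh => key _ h (Nat.lt_succ_self _) _ _ hh (Nat.lt_succ_self _)

/-- A system of gates, each forming a query string from the values of earlier gates. -/
structure QS (G : Type) where
  t : G → ℕ
  rd : G → G → Prop
  qs : G → (G → Bool) → List Bool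
  ev : G → List Bool → Bool → Bool
  ar : G → ℕ
  rd_lt : ∀ g h, rd g h → t h < t g
  qs_congr : ∀ g v v', (∀ h, rd g h → v h = v' h) → qs g v = qs g v'
  len : ∀ g v, (qs g v).length = ar g

namespace QS

variable {G : Type} (S : QS G)

def Obeys (α : List Bool → Bool) (v : G → Bool) : Prop :=
  ∀ g, v g = S.ev g (S.qs g v) (α (S.qs g v))

lemma step_congr (α : List Bool → Bool) (v v' : G → Bool) (g : G)
    (h : ∀ h, S.t h < S.t g → v h = v' h) :
    S.ev g (S.qs g v) (α (S.qs g v)) = S.ev g (S.qs g v') (α (S.qs g v')) := by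
  rw [S.qs_congr g v v' fun k hk => h k (S.rd_lt _ _ hk)]

lemma exists_obeys (α : List Bool → Bool) : ∃ v, S.Obeys α v :=
  fix_exists S.t (fun v g => S.ev g (S.qs g v) (α (S.qs g v))) (S.step_congr α)

noncomputable def val (α : List Bool → Bool) : G → Bool := (S.exists_obeys α).choose

lemma val_obeys (α : List Bool → Bool) : S.Obeys α (S.val α) := (S.exists_obeys α).choose_spec

lemma eq_val {α : List Bool → Bool} {v : G → Bool} (h : S.Obeys α v) : v = S.val α :=
  fix_unique S.t (fun v g => S.ev g (S.qs g v) (α (S.qs g v))) (S.step_congr α) h (S.val_obeys α)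

lemma val_congr {α α' : List Bool → Bool}
    (h : ∀ g, α' (S.qs g (S.val α)) = α (S.qs g (S.val α))) : S.val α' = S.val α := by
  symm
  apply S.eq_val
  intro g
  rw [h g]
  exact S.val_obeys α g

end QS

/-- A layered graph with at most two parents per node and a childless sink. -/
structure LG (V : Type) where
  par : V → Bool → Option V
  rank : V → ℕ
  rank_par : ∀ c b p, par c b = some p → rank c = rank p + 1
  sink : V
  sink_top : ∀ c b, par c b ≠ some sink

namespace LG

variable {V : Type} (Γ : LG V) {w : ℕ}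

/-- The labels of the parents of `c`. -/
def arg (ℓ : V → Fin w → Bool) (c : V) (b : Bool) : Fin w → Bool :=
  match Γ.par c b with
  | none => fun _ => false
  | some p => ℓ p

lemma arg_some {ℓ : V → Fin w → Bool} {c p : V} {b : Bool} (h : Γ.par c b = some p) :
    Γ.arg ℓ c b = ℓ p := by
  simp [arg, h]

lemma arg_congr {ℓ ℓ' : V → Fin w → Bool} {c : V}
    (h : ∀ b p, Γ.par c b = some p → ℓ p = ℓ' p) : Γ.arg ℓ c = Γ.arg ℓ' c := by
  funext b
  cases hp : Γ.par c b with
  | none => simp [arg, hp]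
  | some p => simp [arg, hp, h b p hp]

end LG

/-- An injective placement of label bits among the strings of length `q`. -/
structure Pos (V : Type) (w q : ℕ) where
  pos : V → (Bool → Fin w → Bool) → Fin w → List Bool
  inj : ∀ c a i c' a' i', pos c a i = pos c' a' i' → c = c' ∧ a = a' ∧ i = i'
  len : ∀ c a i, (pos c a i).length = q

section Label

variable {V : Type} (Γ : LG V) {w q : ℕ} (π : Pos V w q)

def IsLab (α : List Bool → Bool) (ℓ : V → Fin w → Bool) : Prop :=
  ∀ c, ℓ c = fun i => α (π.pos c (Γ.arg ℓ c) i)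

lemma lab_step (α : List Bool → Bool) (ℓ ℓ' : V → Fin w → Bool) (c : V)
    (h : ∀ p, Γ.rank p < Γ.rank c → ℓ p = ℓ' p) :
    (fun i => α (π.pos c (Γ.arg ℓ c) i)) = fun i => α (π.pos c (Γ.arg ℓ' c) i) := by
  rw [Γ.arg_congr (ℓ := ℓ) (ℓ' := ℓ') fun b p hp => h p (by rw [Γ.rank_par c b p hp]; omega)]

lemma exists_lab (α : List Bool → Bool) : ∃ ℓ, IsLab Γ π α ℓ :=
  fix_exists Γ.rank (fun ℓ c i => α (π.pos c (Γ.arg ℓ c) i)) (lab_step Γ π α)

noncomputable def lab (α : List Bool → Bool) : V → Fin w → Bool := (exists_lab Γ π α).choose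

lemma lab_isLab (α : List Bool → Bool) : IsLab Γ π α (lab Γ π α) := (exists_lab Γ π α).choose_spec

lemma eq_lab {α : List Bool → Bool} {ℓ : V → Fin w → Bool} (h : IsLab Γ π α ℓ) :
    ℓ = lab Γ π α :=
  fix_unique Γ.rank (fun ℓ c i => α (π.pos c (Γ.arg ℓ c) i)) (lab_step Γ π α) h
    (lab_isLab Γ π α)

lemma lab_congr {α α' : List Bool → Bool}
    (h : ∀ c i, α' (π.pos c (Γ.arg (lab Γ π α) c) i) = α (π.pos c (Γ.arg (lab Γ π α) c) i)) :
    lab Γ π α' = lab Γ π α := by
  symm
  apply eq_lab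
  intro c
  funext i
  rw [h c i]
  exact congrFun (lab_isLab Γ π α c) i

open Classical in
/-- Overwrite `β` at the positions selected by `ℓ` with the bits of `m`. -/
noncomputable def ovw (β : List Bool → Bool) (ℓ m : V → Fin w → Bool) : List Bool → Bool :=
  fun l => if h : ∃ p : V × Fin w, l = π.pos p.1 (Γ.arg ℓ p.1) p.2 then m h.choose.1 h.choose.2
    else β l

lemma ovw_pos (β : List Bool → Bool) (ℓ m : V → Fin w → Bool) (c : V) (i : Fin w) :
    ovw Γ π β ℓ m (π.pos c (Γ.arg ℓ c) i) = m c i := by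
  have h : ∃ p : V × Fin w, π.pos c (Γ.arg ℓ c) i = π.pos p.1 (Γ.arg ℓ p.1) p.2 := ⟨(c, i), rfl⟩
  unfold ovw
  rw [dif_pos h]
  obtain ⟨h1, -, h3⟩ := π.inj _ _ _ _ _ _ h.choose_spec
  rw [← h1, ← h3]

lemma ovw_other (β : List Bool → Bool) (ℓ m : V → Fin w → Bool) (l : List Bool)
    (h : ∀ c i, l ≠ π.pos c (Γ.arg ℓ c) i) : ovw Γ π β ℓ m l = β l := by
  unfold ovw
  rw [dif_neg]
  rintro ⟨p, hp⟩
  exact h _ _ hp

/-- The oracle built from a background `β` and prescribed labels `ℓ`. -/
noncomputable def mix (β : List Bool → Bool) (ℓ : V → Fin w → Bool) : List Bool → Bool :=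
  ovw Γ π β ℓ ℓ

lemma lab_mix (β : List Bool → Bool) (ℓ : V → Fin w → Bool) : lab Γ π (mix Γ π β ℓ) = ℓ := by
  symm
  apply eq_lab
  intro c
  funext i
  exact (ovw_pos Γ π β ℓ ℓ c i).symm

lemma mix_ovw (α : List Bool → Bool) (m : V → Fin w → Bool) :
    mix Γ π (ovw Γ π α (lab Γ π α) m) (lab Γ π α) = α := by
  funext l
  by_cases h : ∃ c i, l = π.pos c (Γ.arg (lab Γ π α) c) i
  · obtain ⟨c, i, rfl⟩ := h
    unfold mix
    rw [ovw_pos]
    exact congrFun (lab_isLab Γ π α c) i
  · push Not at h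
    unfold mix
    rw [ovw_other _ _ _ _ _ _ h, ovw_other _ _ _ _ _ _ h]

open Classical in
/-- Re-randomization: a bound for every background gives a bound for oracles. -/
lemma rerand [Fintype V] (A : Finset (List Bool → Bool))
    (hA : ∀ α ∈ A, ∀ α' : List Bool → Bool,
      (∀ l, (∀ c a i, l ≠ π.pos c a i) → α' l = α l) → α' ∈ A)
    (p : (List Bool → Bool) → Prop)
    (hp : ∀ β, 4 * #{ℓ : V → Fin w → Bool | p (mix Γ π β ℓ)} ≤
      3 * Fintype.card (V → Fin w → Bool)) :
    4 * #(A.filter p) ≤ 3 * #A := by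
  set L := Fintype.card (V → Fin w → Bool) with hL
  have hL0 : 0 < L := Fintype.card_pos
  have h1 : #(A.filter p) * L ≤
      #((A ×ˢ (univ : Finset (V → Fin w → Bool))).filter fun x => p (mix Γ π x.1 x.2)) := by
    rw [hL, ← Finset.card_univ, ← Finset.card_product]
    refine Finset.card_le_card_of_injOn
      (fun x => (ovw Γ π x.1 (lab Γ π x.1) x.2, lab Γ π x.1)) ?_ ?_
    · intro x hx
      simp only [coe_product, coe_filter, Set.mem_prod, Set.mem_setOf_eq, mem_product,
        mem_univ, and_true, coe_univ, Set.mem_univ] at hx ⊢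
      refine ⟨hA _ hx.1 _ fun l hl => ovw_other _ _ _ _ _ _ fun c i => hl _ _ _, ?_⟩
      rw [mix_ovw]
      exact hx.2
    · intro x _ y _ hxy
      simp only [Prod.mk.injEq] at hxy
      obtain ⟨h1, h2⟩ := hxy
      have hα : x.1 = y.1 := by
        rw [← mix_ovw Γ π x.1 x.2, ← mix_ovw Γ π y.1 y.2, h1, h2]
      refine Prod.ext hα ?_
      funext c i
      rw [← ovw_pos Γ π x.1 (lab Γ π x.1) x.2 c i, ← ovw_pos Γ π y.1 (lab Γ π y.1) y.2 c i,
        h1, h2]
  have h2 : #((A ×ˢ (univ : Finset (V → Fin w → Bool))).filter fun x => p (mix Γ π x.1 x.2)) =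
      ∑ β ∈ A, #{ℓ : V → Fin w → Bool | p (mix Γ π β ℓ)} := by
    rw [Finset.card_filter, Finset.sum_product]
    refine Finset.sum_congr rfl fun β _ => ?_
    rw [Finset.card_filter]
  have h3 : 4 * ∑ β ∈ A, #{ℓ : V → Fin w → Bool | p (mix Γ π β ℓ)} ≤ #A * (3 * L) := by
    rw [Finset.mul_sum, ← smul_eq_mul, ← Finset.sum_const]
    exact Finset.sum_le_sum fun β _ => hp β
  have h4 : (4 * #(A.filter p)) * L ≤ (3 * #A) * L := by nlinarith
  exact Nat.le_of_mul_le_mul_right h4 hL0

end Label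

end Pool.Agent.MP_1a6d78_lc.Orc
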