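import Mathlib.CategoryTheory.Category.Init
import Mathlib.Probability.ProductMeasure
import Mathlib.Probability.Distributions.Uniform

/-! Boolean circuits with oracle gates: size, fan-in, depth and width. -/

namespace Pool.Agent.MP_1a6d78_lc.Orc

/-- An argument of a gate: an input, a constant or a gate. -/
inductive Arg (n s : ℕ) : Type
  | input (i : Fin n)
  | const (b : Bool)
  | gate (g : Fin s)

/-- The value of an argument on input `x` when the gates have the values `v`. -/
def Arg.val {n s : ℕ} (x : Fin n → Bool) (v : Fin s → Bool) : Arg n s → Bool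
  | .input i => x i
  | .const b => b
  | .gate g => v g

/-- A gate: negation, conjunction, disjunction, or an oracle gate, which asks the oracle about the
string formed by the values of its arguments. -/
inductive Gate (n s : ℕ) : Type
  | neg (a : Arg n s)
  | conj (a b : Arg n s)
  | disj (a b : Arg n s)
  | ask (l : List (Arg n s))

/-- The arguments of a gate. -/
def Gate.args {n s : ℕ} : Gate n s → List (Arg n s)
  | .neg a => [a]
  | .conj a b => [a, b]
  | .disj a b => [a, b]
  | .ask l => l

/-- The value of a gate for the oracle `α`. -/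
def Gate.val {n s : ℕ} (α : List Bool → Bool) (x : Fin n → Bool) (v : Fin s → Bool) :
    Gate n s → Bool
  | .neg a => !(a.val x v)
  | .conj a b => a.val x v && b.val x v
  | .disj a b => a.val x v || b.val x v
  | .ask l => α (l.map (Arg.val x v))

/-- An oracle circuit with `n` inputs, `size` gates and one output gate. -/
structure Circuit (n : ℕ) where
  size : ℕ
  gate : Fin size → Gate n size
  out : Fin size

namespace Circuit

variable {n : ℕ} (C : Circuit n)

/-- Gate `g` reads gate `h`. -/
def Reads (g h : Fin C.size) : Prop := Arg.gate h ∈ (C.gate g).args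

/-- With the oracle `α`, on every input `x` the gates take values obeying all gate equations and
the output gate takes the value `f x`. -/
def Computes (α : List Bool → Bool) (f : (Fin n → Bool) → Bool) : Prop :=
  ∀ x, ∃ v : Fin C.size → Bool, (∀ g, v g = (C.gate g).val α x v) ∧ v C.out = f x

/-- Every gate has at most `q` arguments; so every oracle query has at most `q` bits. -/
def FanInLE (q : ℕ) : Prop := ∀ g, (C.gate g).args.length ≤ q

/-- The circuit is acyclic and every path contains at most `d` gates. -/
def DepthLE (d : ℕ) : Prop :=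
  ∃ lev : Fin C.size → ℕ, (∀ g, 1 ≤ lev g ∧ lev g ≤ d) ∧ ∀ g h, C.Reads g h → lev h < lev g

/-- The gates carry levels that increase along wires, and for every `i` at most `W` gates of level
`> i` read a gate of level `≤ i`. -/
def WidthLE (W : ℕ) : Prop :=
  ∃ lev : Fin C.size → ℕ, (∀ g h, C.Reads g h → lev h < lev g) ∧
    ∀ i, {g | i < lev g ∧ ∃ h, C.Reads g h ∧ lev h ≤ i}.ncard ≤ W

end Circuit

/-- The polynomial bound `(n + 2) ^ k`. -/
def poly (k n : ℕ) : ℕ := (n + 2) ^ k

/-- The polylogarithmic bound `(log₂ n + 2) ^ k`. -/
def plog (k n : ℕ) : ℕ := (Nat.log 2 n + 2) ^ k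

/-- Nonuniform NC relative to `α`: polynomial size and fan-in, polylogarithmic depth. -/
def NC (α : List Bool → Bool) (f : (n : ℕ) → (Fin n → Bool) → Bool) : Prop :=
  ∃ k, ∀ n, ∃ C : Circuit n, C.Computes α (f n) ∧ C.size ≤ poly k n ∧ C.FanInLE (poly k n) ∧
    C.DepthLE (plog k n)

/-- Nonuniform SC relative to `α`: polynomial size and fan-in, polylogarithmic width. -/
def SC (α : List Bool → Bool) (f : (n : ℕ) → (Fin n → Bool) → Bool) : Prop :=
  ∃ k, ∀ n, ∃ C : Circuit n, C.Computes α (f n) ∧ C.size ≤ poly k n ∧ C.FanInLE (poly k n) ∧
    C.WidthLE (plog k n)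

/-- The law of a random oracle: independent fair coins, one for each bit string. -/
noncomputable def coins : MeasureTheory.Measure (List Bool → Bool) :=
  MeasureTheory.Measure.infinitePi fun _ => (PMF.uniformOfFintype Bool).toMeasure

end Pool.Agent.MP_1a6d78_lc.Orc
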