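import Mathlib.Data.Set.Finite.List
import Pool.Agent.MP_1a6d78_lc.h66.ODefs
import Pool.Agent.MP_1a6d78_lc.h66.Core

-- ======== part 0: formerly Pool.Agent.MP_1a6d78_lc.h66.Salt
section MrgPart0

/-! Many independent instances, counting circuits, and passing to the random oracle. -/

namespace Pool.Agent.MP_1a6d78_lc.Orc

open Finset MeasureTheory
open scoped ENNReal

open Classical in
lemma salt {Z : Type} [Fintype Z] (A : Finset (List Bool → Bool)) (reg : Z → Set (List Bool))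
    (hdisj : ∀ z z' l, l ∈ reg z → l ∈ reg z' → z = z')
    (hA : ∀ z, ∀ α ∈ A, ∀ α' : List Bool → Bool, (∀ l, l ∉ reg z → α' l = α l) → α' ∈ A)
    (suc : Z → (List Bool → Bool) → Prop) (D : Z → (List Bool → Bool) → Finset (List Bool))
    (B : ℕ) (hB : ∀ z α, #(D z α) ≤ B)
    (hstab : ∀ z α α', (∀ l ∈ D z α, α' l = α l) → D z α' = D z α ∧ (suc z α → suc z α'))
    (hsingle : ∀ z (A' : Finset (List Bool → Bool)),
      (∀ α ∈ A', ∀ α' : List Bool → Bool, (∀ l, l ∉ reg z → α' l = α l) → α' ∈ A') →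
      4 * #(A'.filter (suc z)) ≤ 3 * #A') :
    ∀ (j : ℕ) (R : Finset (List Bool)) (ρ : List Bool → Bool), #R + j * B < Fintype.card Z →
      4 ^ j * #{α ∈ A | (∀ l ∈ R, α l = ρ l) ∧ ∀ z, suc z α} ≤
        3 ^ j * #{α ∈ A | ∀ l ∈ R, α l = ρ l} := by
  intro j
  induction j with
  | zero =>
    intro R ρ _
    simp only [pow_zero, one_mul]
    refine Finset.card_le_card fun α hα => ?_
    simp only [mem_filter] at hα ⊢
    exact ⟨hα.1, hα.2.1⟩
  | succ j ih =>
    intro R ρ hR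
    obtain ⟨z, hz⟩ : ∃ z, ∀ l ∈ R, l ∉ reg z := by
      by_contra hcon
      push Not at hcon
      choose f hf1 hf2 using hcon
      have : Fintype.card Z ≤ #R := by
        rw [← Finset.card_univ]
        exact Finset.card_le_card_of_injOn f (fun z _ => hf1 z)
          fun z _ z' _ h => hdisj z z' (f z) (hf2 z) (h ▸ hf2 z')
      omega
    set A' : Finset (List Bool → Bool) := {α ∈ A | ∀ l ∈ R, α l = ρ l} with hA'
    set S := A'.filter (suc z) with hS
    set Gd : Finset (List Bool → Bool) := {α ∈ A | (∀ l ∈ R, α l = ρ l) ∧ ∀ z, suc z α} with hGd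
    let cls : (List Bool → Bool) → Finset (List Bool → Bool) :=
      fun α0 => {α ∈ A | ∀ l ∈ R ∪ D z α0, α l = α0 l}
    have hS4 : 4 * #S ≤ 3 * #A' := by
      apply hsingle z
      intro α hα α' h
      simp only [hA', mem_filter] at hα ⊢
      exact ⟨hA z α hα.1 α' h, fun l hl => by rw [h l (hz l hl), hα.2 l hl]⟩
    have hfib : ∀ α0 ∈ S, ∀ α ∈ cls α0, α ∈ S ∧ cls α = cls α0 := by
      intro α0 h0 α hα
      simp only [hS, hA', cls, mem_filter, mem_union] at h0 hα ⊢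
      obtain ⟨e1, e2⟩ := hstab z α0 α fun l hl => hα.2 l (Or.inr hl)
      refine ⟨⟨⟨hα.1, fun l hl => by rw [hα.2 l (Or.inl hl), h0.1.2 l hl]⟩, e2 h0.2⟩, ?_⟩
      ext α1
      simp only [mem_filter, e1]
      refine and_congr_right fun _ => forall_congr' fun l => forall_congr' fun hl => ?_
      rw [hα.2 l hl]
    have hself : ∀ α ∈ A, α ∈ cls α := by
      intro α hα
      simp only [cls, mem_filter]
      exact ⟨hα, fun _ _ => trivial⟩
    have hGS : Gd ⊆ S := by
      intro α hα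
      simp only [hS, hA', hGd, mem_filter] at hα ⊢
      exact ⟨⟨hα.1, hα.2.1⟩, hα.2.2 z⟩
    have e1 : #Gd = ∑ c ∈ S.image cls, #{α ∈ Gd | cls α = c} :=
      Finset.card_eq_sum_card_fiberwise fun α hα => Finset.mem_image_of_mem _ (hGS hα)
    have e2 : #S = ∑ c ∈ S.image cls, #{α ∈ S | cls α = c} :=
      Finset.card_eq_sum_card_fiberwise fun α hα => Finset.mem_image_of_mem _ hα
    have e3 : 4 ^ j * #Gd ≤ 3 ^ j * #S := by
      rw [e1, e2, Finset.mul_sum, Finset.mul_sum]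
      refine Finset.sum_le_sum fun c hc => ?_
      obtain ⟨α0, h0, rfl⟩ := Finset.mem_image.1 hc
      have h1 := ih (R ∪ D z α0) α0 (by
        have := Finset.card_union_le R (D z α0)
        have := hB z α0
        nlinarith)
      refine le_trans (Nat.mul_le_mul_left _ (Finset.card_le_card ?_))
        (le_trans h1 (Nat.mul_le_mul_left _ (Finset.card_le_card ?_)))
      · intro α hα
        rw [mem_filter] at hα
        have h2 : α ∈ A ∧ (∀ l ∈ R, α l = ρ l) ∧ ∀ z, suc z α := by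
          simpa only [hGd, mem_filter] using hα.1
        have h3 := hself α h2.1
        rw [hα.2] at h3
        simp only [cls, mem_filter] at h3 ⊢
        exact ⟨h3.1, h3.2, h2.2.2⟩
      · intro α hα
        rw [mem_filter]
        exact hfib α0 h0 α (by simpa only [cls, mem_filter] using hα)
    calc 4 ^ (j + 1) * #Gd = 4 * (4 ^ j * #Gd) := by ring
      _ ≤ 4 * (3 ^ j * #S) := Nat.mul_le_mul_left _ e3
      _ = 3 ^ j * (4 * #S) := by ring
      _ ≤ 3 ^ j * (3 * #A') := Nat.mul_le_mul_left _ hS4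
      _ = 3 ^ (j + 1) * #A' := by ring

open Classical in
lemma salt' {Z : Type} [Fintype Z] (A : Finset (List Bool → Bool)) (reg : Z → Set (List Bool))
    (hdisj : ∀ z z' l, l ∈ reg z → l ∈ reg z' → z = z')
    (hA : ∀ z, ∀ α ∈ A, ∀ α' : List Bool → Bool, (∀ l, l ∉ reg z → α' l = α l) → α' ∈ A)
    (suc : Z → (List Bool → Bool) → Prop) (D : Z → (List Bool → Bool) → Finset (List Bool))
    (B : ℕ) (hB : ∀ z α, #(D z α) ≤ B)
    (hstab : ∀ z α α', (∀ l ∈ D z α, α' l = α l) → D z α' = D z α ∧ (suc z α → suc z α'))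
    (hsingle : ∀ z (A' : Finset (List Bool → Bool)),
      (∀ α ∈ A', ∀ α' : List Bool → Bool, (∀ l, l ∉ reg z → α' l = α l) → α' ∈ A') →
      4 * #(A'.filter (suc z)) ≤ 3 * #A') (j : ℕ) (hj : j * B < Fintype.card Z) :
    ∃ T : Finset (List Bool → Bool), 4 ^ j * #T ≤ 3 ^ j * #A ∧
      ∀ α ∈ A, (∀ z, suc z α) → α ∈ T := by
  have key := salt A reg hdisj hA suc D B hB hstab hsingle j ∅ (fun _ => false) (by simpa using hj)
  refine ⟨_, le_trans key (Nat.mul_le_mul_left _ (Finset.card_filter_le _ _)), fun α h1 h2 => ?_⟩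
  rw [mem_filter]
  exact ⟨h1, by simp, h2⟩

/-- The oracle that agrees with `α` on `I` and is false elsewhere. -/
def trunc (I : Finset (List Bool)) (α : List Bool → Bool) : List Bool → Bool :=
  fun l => if l ∈ I then α l else false

open Classical in
/-- The oracles that are false outside `I`. -/
noncomputable def base (I : Finset (List Bool)) : Finset (List Bool → Bool) :=
  univ.image fun (a : I → Bool) l => if h : l ∈ I then a ⟨l, h⟩ else false

lemma mem_base {I : Finset (List Bool)} {α : List Bool → Bool} :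
    α ∈ base I ↔ ∀ l, l ∉ I → α l = false := by
  simp only [base, mem_image, mem_univ, true_and]
  constructor
  · rintro ⟨a, rfl⟩ l hl
    simp [hl]
  · intro h
    refine ⟨fun l => α l, ?_⟩
    funext l
    by_cases hl : l ∈ I
    · simp [hl]
    · simp [hl, h l hl]

lemma card_base (I : Finset (List Bool)) : #(base I) ≤ 2 ^ #I := by
  classical
  unfold base
  refine le_trans Finset.card_image_le ?_
  simp

lemma coins_le (I : Finset (List Bool)) (E : Set (List Bool → Bool))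
    (B : Finset (List Bool → Bool)) (h : ∀ α ∈ E, trunc I α ∈ B) (L : ℕ)
    (hL : 2 ^ L * #B ≤ 2 ^ #I) : coins E ≤ 2⁻¹ ^ L := by
  have h1 : E ⊆ ⋃ β ∈ B, Set.pi (I : Set (List Bool)) fun l => {β l} := by
    intro α hα
    simp only [Set.mem_iUnion]
    refine ⟨_, h α hα, fun l hl => ?_⟩
    simp only [trunc, Set.mem_singleton_iff]
    rw [if_pos (by simpa using hl)]
  have h2 : ∀ β : List Bool → Bool,
      coins (Set.pi (I : Set (List Bool)) fun l => {β l}) = 2⁻¹ ^ #I := by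
    intro β
    unfold coins
    rw [Measure.infinitePi_pi _ fun _ _ => MeasurableSet.singleton _]
    simp [PMF.toMeasure_apply_singleton]
  have h3 : coins E ≤ #B * 2⁻¹ ^ #I := by
    refine le_trans (measure_mono h1) (le_trans (measure_biUnion_finset_le _ _) ?_)
    simp [h2]
  refine le_trans h3 ?_
  have h4 : (2 : ℝ≥0∞) ^ L * #B ≤ 2 ^ #I := by exact_mod_cast hL
  have h5 : ∀ m : ℕ, (2 : ℝ≥0∞)⁻¹ ^ m * 2 ^ m = 1 := by
    intro m
    rw [← mul_pow, ENNReal.inv_mul_cancel (by norm_num) (by norm_num), one_pow]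
  calc (#B : ℝ≥0∞) * 2⁻¹ ^ #I = (2⁻¹ ^ L * 2 ^ L) * #B * 2⁻¹ ^ #I := by rw [h5, one_mul]
    _ = 2⁻¹ ^ L * (2 ^ L * #B) * 2⁻¹ ^ #I := by ring
    _ ≤ 2⁻¹ ^ L * 2 ^ #I * 2⁻¹ ^ #I := by gcongr
    _ = 2⁻¹ ^ L * (2⁻¹ ^ #I * 2 ^ #I) := by ring
    _ = 2⁻¹ ^ L := by rw [h5, mul_one]

/-- Arguments from codes. -/
def decArg {n s : ℕ} : Fin n ⊕ Bool ⊕ Fin s → Arg n s
  | .inl i => .input i
  | .inr (.inl b) => .const b
  | .inr (.inr g) => .gate g

lemma decArg_surj {n s : ℕ} : Function.Surjective (decArg (n := n) (s := s)) := by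
  rintro (i | b | g)
  · exact ⟨.inl i, rfl⟩
  · exact ⟨.inr (.inl b), rfl⟩
  · exact ⟨.inr (.inr g), rfl⟩

/-- Gates from a tag and a list of arguments. -/
def mkGate {n s : ℕ} (b1 b2 : Bool) (l : List (Arg n s)) : Gate n s :=
  match b1, b2 with
  | false, false => .neg (l.getD 0 (.const false))
  | false, true => .conj (l.getD 0 (.const false)) (l.getD 1 (.const false))
  | true, false => .disj (l.getD 0 (.const false)) (l.getD 1 (.const false))
  | true, true => .ask l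

/-- Gates from codes. -/
def decGate {n s q : ℕ} (c : Bool × Bool × Fin (q + 1) × (Fin q → Fin n ⊕ Bool ⊕ Fin s)) :
    Gate n s :=
  mkGate c.1 c.2.1 ((List.ofFn fun i => decArg (c.2.2.2 i)).take c.2.2.1)

lemma decGate_surj {n s q : ℕ} (g : Gate n s) (hg : g.args.length ≤ q) :
    ∃ c, decGate (q := q) c = g := by
  obtain ⟨b1, b2, hb⟩ : ∃ b1 b2, mkGate b1 b2 g.args = g := by
    cases g with
    | neg a => exact ⟨false, false, rfl⟩
    | conj a b => exact ⟨false, true, rfl⟩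
    | disj a b => exact ⟨true, false, rfl⟩
    | ask l => exact ⟨true, true, rfl⟩
  choose f hf using decArg_surj (n := n) (s := s)
  refine ⟨(b1, b2, ⟨g.args.length, by omega⟩, fun i => f (g.args.getD i (.const false))), ?_⟩
  unfold decGate
  simp only [hf]
  convert hb
  apply List.ext_getElem
  · simp [hg]
  · intro i h1 h2
    simp [h2]

lemma circuits (n s : ℕ) : ∃ F : Finset (Circuit n),
    #F ≤ (s + 1) * (s * (4 * (s + 1) * (n + 2 + s) ^ s) ^ s) ∧
      ∀ C : Circuit n, C.size ≤ s → C.FanInLE s → C ∈ F := by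
  classical
  let F : ℕ → Finset (Circuit n) := fun m => univ.image
    fun (c : Fin m × (Fin m → Bool × Bool × Fin (s + 1) × (Fin s → Fin n ⊕ Bool ⊕ Fin m))) =>
      (⟨m, fun g => decGate (c.2 g), c.1⟩ : Circuit n)
  refine ⟨(range (s + 1)).biUnion F, ?_, ?_⟩
  · refine le_trans Finset.card_biUnion_le ?_
    rw [← smul_eq_mul]
    refine le_trans (Finset.sum_le_card_nsmul _ _ (s * (4 * (s + 1) * (n + 2 + s) ^ s) ^ s) ?_)
      (by simp)
    intro m hm
    have hm' : m ≤ s := by simpa [Nat.lt_succ_iff] using hm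
    refine le_trans Finset.card_image_le ?_
    simp only [card_univ, Fintype.card_prod, Fintype.card_fin, Fintype.card_fun,
      Fintype.card_bool, Fintype.card_sum]
    have h1 : 2 * (2 * ((s + 1) * (n + (2 + m)) ^ s)) ≤ 4 * (s + 1) * (n + 2 + s) ^ s := by
      have : (n + (2 + m)) ^ s ≤ (n + 2 + s) ^ s := Nat.pow_le_pow_left (by omega) _
      nlinarith
    calc m * (2 * (2 * ((s + 1) * (n + (2 + m)) ^ s))) ^ m
        ≤ s * (4 * (s + 1) * (n + 2 + s) ^ s) ^ m := by gcongr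
      _ ≤ _ := by
        gcongr
        exact Nat.pos_of_ne_zero (by positivity)
  · rintro ⟨m, gate, out⟩ h1 h2
    choose c hc using fun g => decGate_surj (q := s) (gate g) (h2 g)
    refine Finset.mem_biUnion.2 ⟨m, by simpa [Nat.lt_succ_iff] using h1, ?_⟩
    refine Finset.mem_image.2 ⟨(out, c), mem_univ _, ?_⟩
    simp only [hc]

end Pool.Agent.MP_1a6d78_lc.Orc

end MrgPart0

-- ======== part 1: formerly Pool.Agent.MP_1a6d78_lc.h66.Lucky
section MrgPart1

/-! The extraction argument: few labels can be used before they are recomputed. -/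

namespace Pool.Agent.MP_1a6d78_lc.Orc

open Finset

section Peb

variable {V G : Type} [Fintype V] (Γ : LG V) (t : G → ℕ) (Q : G → V → Prop)

open Classical in
/-- The nodes whose label is used from time `τ` on before being recomputed. -/
noncomputable def Peb (τ : ℕ) : Finset V :=
  {u | ∃ g c b, τ ≤ t g ∧ Q g c ∧ Γ.par c b = some u ∧ ∀ g', τ ≤ t g' → t g' < t g → ¬ Q g' u}

lemma mem_Peb {τ : ℕ} {u : V} : u ∈ Peb Γ t Q τ ↔
    ∃ g c b, τ ≤ t g ∧ Q g c ∧ Γ.par c b = some u ∧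
      ∀ g', τ ≤ t g' → t g' < t g → ¬ Q g' u := by
  simp [Peb]

/-- `g` is a first use of the label of `u` from time `τ` on. -/
def Good (τ : ℕ) (u : V) (g : G) : Prop :=
  τ ≤ t g ∧ (∃ c b, Q g c ∧ Γ.par c b = some u) ∧
    ∀ g', τ ≤ t g' → (Q g' u ∨ ∃ c b, Q g' c ∧ Γ.par c b = some u) → t g ≤ t g'

lemma good_of_peb {τ : ℕ} {u : V} (h : u ∈ Peb Γ t Q τ) : ∃ g, Good Γ t Q τ u g := by
  classical
  obtain ⟨g0, c0, b0, h1, h2, h3, h4⟩ := (mem_Peb Γ t Q).1 h
  have hex : ∃ m, ∃ g, t g = m ∧ τ ≤ t g ∧ ∃ c b, Q g c ∧ Γ.par c b = some u :=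
    ⟨_, g0, rfl, h1, c0, b0, h2, h3⟩
  obtain ⟨g, hg, hτ, hc⟩ := Nat.find_spec hex
  have hmin : ∀ g', τ ≤ t g' → (∃ c b, Q g' c ∧ Γ.par c b = some u) → t g ≤ t g' := by
    intro g' h1' h2'
    rw [hg]
    exact Nat.find_min' hex ⟨g', rfl, h1', h2'⟩
  refine ⟨g, hτ, hc, fun g' hg' hq => ?_⟩
  rcases hq with hq | hq
  · have := hmin g0 h1 ⟨c0, b0, h2, h3⟩
    by_contra hlt
    exact h4 g' hg' (by omega) hq
  · exact hmin g' hg' hq

lemma peb_subset {τ : ℕ} (h : (Peb Γ t Q τ).Nonempty) :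
    ∃ g, Peb Γ t Q τ ⊆ Peb Γ t Q (t g) := by
  classical
  obtain ⟨u0, hu0⟩ := h
  obtain ⟨g0, -, -, h1, -⟩ := (mem_Peb Γ t Q).1 hu0
  have hex : ∃ m, ∃ g, t g = m ∧ τ ≤ t g := ⟨_, g0, rfl, h1⟩
  obtain ⟨g, hg, hτ⟩ := Nat.find_spec hex
  refine ⟨g, fun u hu => ?_⟩
  obtain ⟨g1, c, b, k1, k2, k3, k4⟩ := (mem_Peb Γ t Q).1 hu
  refine (mem_Peb Γ t Q).2 ⟨g1, c, b, ?_, k2, k3, fun g' a1 a2 => k4 g' (by omega) a2⟩
  rw [hg]
  exact Nat.find_min' hex ⟨g1, rfl, k1⟩

end Peb

section Main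

variable {V G : Type} (S : QS G) (Γ : LG V) {w q : ℕ} (π : Pos V w q) (β : List Bool → Bool)

/-- Gate `g` asks for a bit of the label of `c`. -/
def CQ (ℓ : V → Fin w → Bool) (g : G) (c : V) : Prop :=
  ∃ i, S.qs g (S.val (mix Γ π β ℓ)) = π.pos c (Γ.arg ℓ c) i

lemma CQ_unique {ℓ : V → Fin w → Bool} {g : G} {c c' : V} (h : CQ S Γ π β ℓ g c)
    (h' : CQ S Γ π β ℓ g c') : c = c' := by
  obtain ⟨i, hi⟩ := h
  obtain ⟨i', hi'⟩ := h'
  exact (π.inj _ _ _ _ _ _ (hi.symm.trans hi')).1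

/-- `H` carries all the information that crosses the time `τ`. -/
def Cut (q τ : ℕ) (H : Finset G) : Prop :=
  ∀ g h, τ ≤ S.t g → S.rd g h → S.t h < τ → (S.ar g ≤ q → h ∈ H) ∧ (q < S.ar g → g ∈ H)

lemma half {K τ : ℕ} {ℓ ℓ' : V → Fin w → Bool} {u : Fin K → V} {γ : Fin K → G}
    (hG : ∀ k, Good Γ S.t (CQ S Γ π β ℓ) τ (u k) (γ k))
    (hoff : ∀ c, (∀ k, u k ≠ c) → ℓ c = ℓ' c) {g : G} {c : V} (hτ : τ ≤ S.t g)
    (hq : CQ S Γ π β ℓ g c) (hk : ∀ k, S.t (γ k) ≤ S.t g → ℓ (u k) = ℓ' (u k)) :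
    Γ.arg ℓ c = Γ.arg ℓ' c ∧ ℓ c = ℓ' c := by
  constructor
  · apply Γ.arg_congr
    intro b p hp
    by_cases h : ∃ k, u k = p
    · obtain ⟨k, rfl⟩ := h
      exact hk k ((hG k).2.2 g hτ (Or.inr ⟨c, b, hq, hp⟩))
    · push Not at h
      exact hoff p h
  · by_cases h : ∃ k, u k = c
    · obtain ⟨k, rfl⟩ := h
      exact hk k ((hG k).2.2 g hτ (Or.inl hq))
    · push Not at h
      exact hoff c h

lemma decode {K τ : ℕ} {H : Finset G} (hH : Cut S q τ H) {ℓ ℓ' : V → Fin w → Bool}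
    {u : Fin K → V} {γ : Fin K → G}
    (hG : ∀ k, Good Γ S.t (CQ S Γ π β ℓ) τ (u k) (γ k))
    (hG' : ∀ k, Good Γ S.t (CQ S Γ π β ℓ') τ (u k) (γ k))
    (hoff : ∀ c, (∀ k, u k ≠ c) → ℓ c = ℓ' c)
    (hv : ∀ h ∈ H, S.val (mix Γ π β ℓ) h = S.val (mix Γ π β ℓ') h) : ℓ = ℓ' := by
  set v := S.val (mix Γ π β ℓ) with hvdef
  set v' := S.val (mix Γ π β ℓ') with hvdef'
  have hA : ∀ θ, (∀ g, τ ≤ S.t g → S.t g < θ → v g = v' g) → ∀ g, τ ≤ S.t g → S.t g ≤ θ →
      (S.ar g ≤ q ∨ ∀ h, S.rd g h → τ ≤ S.t h) → S.qs g v = S.qs g v' := by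
    intro θ ih g h1 h2 h3
    apply S.qs_congr
    intro h hr
    have := S.rd_lt _ _ hr
    by_cases hh : τ ≤ S.t h
    · exact ih h hh (by omega)
    · rcases h3 with h3 | h3
      · exact hv h ((hH g h h1 hr (by omega)).1 h3)
      · exact absurd (h3 h hr) hh
  have hB : ∀ θ, (∀ g, τ ≤ S.t g → S.t g < θ → v g = v' g) → ∀ k, S.t (γ k) ≤ θ →
      ℓ (u k) = ℓ' (u k) := by
    intro θ ih k hk
    obtain ⟨h1, ⟨c, b, ⟨i, hi⟩, hp⟩, -⟩ := hG k
    obtain ⟨-, ⟨c', b', ⟨i', hi'⟩, -⟩, -⟩ := hG' k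
    have har : S.ar (γ k) ≤ q := by
      rw [← S.len (γ k) v, hvdef, hi, π.len]
    have hq := hA θ ih (γ k) h1 hk (Or.inl har)
    rw [hvdef, hvdef', hi, hi'] at hq
    obtain ⟨rfl, ha, -⟩ := π.inj _ _ _ _ _ _ hq
    rw [← Γ.arg_some (ℓ := ℓ) hp, ← Γ.arg_some (ℓ := ℓ') hp, ha]
  have hC : ∀ θ g, τ ≤ S.t g → S.t g < θ → v g = v' g := by
    intro θ
    induction θ with
    | zero => intro g _ hg; omega
    | succ θ ih =>
      intro g h1 h2
      by_cases h3 : S.ar g ≤ q ∨ ∀ h, S.rd g h → τ ≤ S.t h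
      swap
      · push Not at h3
        obtain ⟨h3, h, hr, hh⟩ := h3
        exact hv g ((hH g h h1 hr hh).2 h3)
      have hq := hA θ ih g h1 (by omega) h3
      have hk : ∀ k, S.t (γ k) ≤ S.t g → ℓ (u k) = ℓ' (u k) :=
        fun k hk => hB θ ih k (by omega)
      have hmix : mix Γ π β ℓ (S.qs g v) = mix Γ π β ℓ' (S.qs g v') := by
        by_cases e1 : ∃ c i, S.qs g v = π.pos c (Γ.arg ℓ c) i
        · obtain ⟨c, i, hi⟩ := e1
          obtain ⟨a1, a2⟩ := half S Γ π β hG hoff h1 ⟨i, hi⟩ hk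
          rw [← hq, hi]
          unfold mix
          rw [ovw_pos, a1, ovw_pos, a2]
        · by_cases e2 : ∃ c i, S.qs g v' = π.pos c (Γ.arg ℓ' c) i
          · obtain ⟨c, i, hi⟩ := e2
            obtain ⟨a1, -⟩ := half S Γ π β hG' (fun c hc => (hoff c hc).symm) h1 ⟨i, hi⟩
              (fun k h => (hk k h).symm)
            exact absurd ⟨c, i, by rw [hq, hi, a1]⟩ e1
          · push Not at e1 e2
            unfold mix
            rw [ovw_other _ _ _ _ _ _ e1, ovw_other _ _ _ _ _ _ e2, hq]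
      have o1 : v g = S.ev g (S.qs g v) (mix Γ π β ℓ (S.qs g v)) := S.val_obeys (mix Γ π β ℓ) g
      have o2 : v' g = S.ev g (S.qs g v') (mix Γ π β ℓ' (S.qs g v')) :=
        S.val_obeys (mix Γ π β ℓ') g
      rw [o1, o2, hmix, hq]
  funext c
  by_cases h : ∃ k, u k = c
  · obtain ⟨k, rfl⟩ := h
    exact hB _ (hC (S.t (γ k))) k le_rfl
  · push Not at h
    exact hoff c h

open Classical in
lemma lucky [Fintype V] [Fintype G] {τ : ℕ} {H : Finset G} (hH : Cut S q τ H) (K : ℕ) :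
    #{ℓ : V → Fin w → Bool | K ≤ #(Peb Γ S.t (CQ S Γ π β ℓ) τ)} * (2 ^ w) ^ K ≤
      2 ^ #H * (Fintype.card V * Fintype.card G) ^ K * Fintype.card (V → Fin w → Bool) := by
  set T : Finset (V → Fin w → Bool) := {ℓ | K ≤ #(Peb Γ S.t (CQ S Γ π β ℓ) τ)} with hT
  have hex : ∀ ℓ : T, ∃ (u : Fin K → V) (γ : Fin K → G), Function.Injective u ∧
      ∀ k, Good Γ S.t (CQ S Γ π β ℓ.1) τ (u k) (γ k) := by
    rintro ⟨ℓ, hℓ⟩
    simp only [hT, mem_filter, mem_univ, true_and] at hℓ
    obtain ⟨U, hU, hc⟩ := Finset.exists_subset_card_eq hℓ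
    let e := (Finset.equivFinOfCardEq hc).symm
    have hg : ∀ k, ∃ g, Good Γ S.t (CQ S Γ π β ℓ) τ (e k).1 g :=
      fun k => good_of_peb Γ S.t _ (hU (e k).2)
    choose γ hγ using hg
    exact ⟨fun k => (e k).1, γ, fun a b h => e.injective (Subtype.ext h), hγ⟩
  choose u γ hu hγ using hex
  let Φ : T × (Fin K → Fin w → Bool) → (H → Bool) × (Fin K → V × G) × (V → Fin w → Bool) :=
    fun x => (fun h => S.val (mix Γ π β x.1.1) h, fun k => (u x.1 k, γ x.1 k),
      fun c => if h : ∃ k, u x.1 k = c then x.2 h.choose else x.1.1 c)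
  have hΦ : Function.Injective Φ := by
    rintro ⟨ℓ, e⟩ ⟨ℓ', e'⟩ h
    simp only [Φ, Prod.mk.injEq] at h
    obtain ⟨h1, h2, h3⟩ := h
    have hu' : u ℓ = u ℓ' := funext fun k => (Prod.mk.inj (congrFun h2 k)).1
    have hγ' : γ ℓ = γ ℓ' := funext fun k => (Prod.mk.inj (congrFun h2 k)).2
    have hℓ : ℓ.1 = ℓ'.1 := by
      refine decode S Γ π β hH (hγ ℓ) (by rw [hu', hγ']; exact hγ ℓ') ?_ ?_
      · intro c hc
        have := congrFun h3 c
        rw [dif_neg (by push Not; exact hc), dif_neg (by rw [← hu']; push Not; exact hc)] at this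
        exact this
      · intro h hh
        exact congrFun h1 ⟨h, hh⟩
    have hℓ' : ℓ = ℓ' := Subtype.ext hℓ
    subst hℓ'
    refine Prod.ext rfl ?_
    funext k
    have hk : ∃ k', u ℓ k' = u ℓ k := ⟨k, rfl⟩
    have := congrFun h3 (u ℓ k)
    rw [dif_pos hk, dif_pos hk, hu ℓ hk.choose_spec] at this
    exact this
  have := Fintype.card_le_of_injective Φ hΦ
  simp only [Fintype.card_prod, Fintype.card_coe, Fintype.card_fun, Fintype.card_fin,
    Fintype.card_bool] at this ⊢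
  calc _ ≤ _ := this
    _ = _ := by ring

open Classical in
lemma sink_half [Fintype V] (out : G) (i0 : Fin w) :
    2 * #{ℓ : V → Fin w → Bool | S.val (mix Γ π β ℓ) out = ℓ Γ.sink i0 ∧
      ∀ g, ¬ CQ S Γ π β ℓ g Γ.sink} ≤ Fintype.card (V → Fin w → Bool) := by
  set T : Finset (V → Fin w → Bool) := {ℓ | S.val (mix Γ π β ℓ) out = ℓ Γ.sink i0 ∧
      ∀ g, ¬ CQ S Γ π β ℓ g Γ.sink} with hT
  let φ : (V → Fin w → Bool) → V → Fin w → Bool := fun ℓ =>
    Function.update ℓ Γ.sink (fun i => !ℓ Γ.sink i)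
  have hinj : Function.Injective φ := by
    intro ℓ ℓ' h
    funext c i
    have := congrFun (congrFun h c) i
    by_cases hc : c = Γ.sink
    · subst hc
      simpa [φ] using this
    · simpa [φ, hc] using this
  have hmap : ∀ ℓ ∈ T, φ ℓ ∈ Tᶜ := by
    intro ℓ hℓ
    simp only [hT, mem_filter, mem_univ, true_and, mem_compl] at hℓ ⊢
    obtain ⟨h1, h2⟩ := hℓ
    have harg : ∀ c, Γ.arg (φ ℓ) c = Γ.arg ℓ c := by
      intro c
      apply Γ.arg_congr
      intro b p hp
      have : p ≠ Γ.sink := by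
        rintro rfl
        exact Γ.sink_top c b hp
      simp [φ, this]
    have hval : S.val (mix Γ π β (φ ℓ)) = S.val (mix Γ π β ℓ) := by
      apply S.val_congr
      intro g
      by_cases e1 : ∃ c i, S.qs g (S.val (mix Γ π β ℓ)) = π.pos c (Γ.arg ℓ c) i
      · obtain ⟨c, i, hi⟩ := e1
        have hc : c ≠ Γ.sink := by
          rintro rfl
          exact h2 g ⟨i, hi⟩
        rw [hi]
        unfold mix
        rw [ovw_pos, ← harg, ovw_pos]
        simp [φ, hc]
      · push Not at e1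
        unfold mix at e1 ⊢
        rw [ovw_other _ _ _ _ _ _ e1, ovw_other _ _ _ _ _ _ (by simpa only [harg] using e1)]
    rintro ⟨h3, -⟩
    rw [hval, h1] at h3
    simp [φ] at h3
  have h1 : #T ≤ #Tᶜ := Finset.card_le_card_of_injOn φ hmap hinj.injOn
  have h2 := Finset.card_add_card_compl T
  omega

open Classical in
/-- The output agrees with the target bit for at most three quarters of the labellings. -/
def Fails [Fintype V] (out : G) (i0 : Fin w) : Prop :=
  4 * #{ℓ : V → Fin w → Bool | S.val (mix Γ π β ℓ) out = ℓ Γ.sink i0} ≤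
    3 * Fintype.card (V → Fin w → Bool)

open Classical in
/-- One instance: if small pebble sets rule out a query to the sink, success has density at most
three quarters. -/
lemma single [Fintype V] [Fintype G] (out : G) (i0 : Fin w) (Θ : Finset ℕ) (h K : ℕ)
    (hΘ : #Θ ≤ Fintype.card G) (hcut : ∀ τ ∈ Θ, ∃ H, #H ≤ h ∧ Cut S q τ H)
    (hw : 8 * (Fintype.card V * Fintype.card G) ≤ 2 ^ w)
    (hK : 8 * Fintype.card G * 2 ^ h ≤ 8 ^ K)
    (hP : ∀ Q : G → V → Prop, (∀ g c c', Q g c → Q g c' → c = c') → Peb Γ S.t Q 0 = ∅ →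
      (∀ τ ∈ Θ, #(Peb Γ S.t Q τ) < K) → ∀ g, ¬ Q g Γ.sink) :
    Fails S Γ π β out i0 := by
  unfold Fails
  set L := Fintype.card (V → Fin w → Bool) with hL
  set N := Fintype.card V * Fintype.card G with hN
  set T0 : Finset (V → Fin w → Bool) := {ℓ | S.val (mix Γ π β ℓ) out = ℓ Γ.sink i0 ∧
      ∀ g, ¬ CQ S Γ π β ℓ g Γ.sink} with hT0
  set T : ℕ → ℕ → Finset (V → Fin w → Bool) :=
    fun k τ => {ℓ | k ≤ #(Peb Γ S.t (CQ S Γ π β ℓ) τ)} with hT
  have hsub : ({ℓ | S.val (mix Γ π β ℓ) out = ℓ Γ.sink i0} : Finset (V → Fin w → Bool)) ⊆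
      T0 ∪ (T 1 0 ∪ Θ.biUnion (T K)) := by
    intro ℓ hℓ
    simp only [hT0, hT, mem_filter, mem_univ, true_and, mem_union, mem_biUnion] at hℓ ⊢
    by_contra hcon
    push Not at hcon
    obtain ⟨h1, h2, h3⟩ := hcon
    obtain ⟨g, hg⟩ := h1 hℓ
    exact hP (CQ S Γ π β ℓ) (fun g c c' => CQ_unique S Γ π β) (Finset.card_eq_zero.1 (by omega))
      h3 g hg
  have hw0 : 0 < 2 ^ w := by positivity
  have h0 : 2 * #T0 ≤ L := by convert sink_half S Γ π β out i0
  have h1 : 8 * #(T 1 0) ≤ L := by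
    have := lucky S Γ π β (τ := 0) (H := ∅) (fun g h _ _ hh => absurd hh (by omega)) 1
    simp only [card_empty, pow_zero, pow_one, one_mul] at this
    have h2 : (8 * #(T 1 0)) * 2 ^ w ≤ L * 2 ^ w := by
      calc (8 * #(T 1 0)) * 2 ^ w = 8 * (#(T 1 0) * 2 ^ w) := by ring
        _ ≤ 8 * (N * L) := Nat.mul_le_mul_left _ this
        _ = L * (8 * N) := by ring
        _ ≤ L * 2 ^ w := Nat.mul_le_mul_left _ hw
    exact Nat.le_of_mul_le_mul_right h2 hw0
  have h2 : ∀ τ ∈ Θ, 8 * Fintype.card G * #(T K τ) ≤ L := by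
    intro τ hτ
    obtain ⟨H, hH1, hH2⟩ := hcut τ hτ
    have := lucky S Γ π β hH2 K
    have h3 : (8 * Fintype.card G * #(T K τ)) * (2 ^ w) ^ K ≤ L * (2 ^ w) ^ K := by
      calc (8 * Fintype.card G * #(T K τ)) * (2 ^ w) ^ K
          = 8 * Fintype.card G * (#(T K τ) * (2 ^ w) ^ K) := by ring
        _ ≤ 8 * Fintype.card G * (2 ^ #H * N ^ K * L) := Nat.mul_le_mul_left _ this
        _ ≤ 8 * Fintype.card G * (2 ^ h * N ^ K * L) := by gcongr; norm_num
        _ = (8 * Fintype.card G * 2 ^ h) * N ^ K * L := by ring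
        _ ≤ 8 ^ K * N ^ K * L := by gcongr
        _ = L * (8 * N) ^ K := by rw [mul_pow]; ring
        _ ≤ L * (2 ^ w) ^ K := by gcongr
    exact Nat.le_of_mul_le_mul_right h3 (by positivity)
  have h3 : 8 * #(Θ.biUnion (T K)) ≤ L := by
    have hG : 0 < Fintype.card G := Fintype.card_pos_iff.2 ⟨out⟩
    have h4 : (8 * #(Θ.biUnion (T K))) * Fintype.card G ≤ L * Fintype.card G := by
      calc (8 * #(Θ.biUnion (T K))) * Fintype.card G
          ≤ (8 * ∑ τ ∈ Θ, #(T K τ)) * Fintype.card G := by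
            gcongr
            exact Finset.card_biUnion_le
        _ = ∑ τ ∈ Θ, 8 * Fintype.card G * #(T K τ) := by
            rw [← Finset.mul_sum]; ring
        _ ≤ ∑ τ ∈ Θ, L := Finset.sum_le_sum h2
        _ = #Θ * L := by simp
        _ ≤ Fintype.card G * L := by gcongr
        _ = L * Fintype.card G := by ring
    exact Nat.le_of_mul_le_mul_right h4 hG
  have h4 := Finset.card_le_card hsub
  have h5 := Finset.card_union_le T0 (T 1 0 ∪ Θ.biUnion (T K))
  have h6 := Finset.card_union_le (T 1 0) (Θ.biUnion (T K))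
  omega

end Main

end Pool.Agent.MP_1a6d78_lc.Orc

end MrgPart1

-- ======== part 2: formerly Pool.Agent.MP_1a6d78_lc.h66.Pebble
section MrgPart2

/-! Pebbling a stack of butterflies: many moves with few pebbles, many rounds in parallel. -/

namespace Pool.Agent.MP_1a6d78_lc.Orc

open Finset

section Abstract

variable {G : Type} [Fintype G] {r : ℕ} (hr : 0 < r) (t : G → ℕ)
  (Q : G → ℕ → (Fin r → Bool) → Prop) (P : ℕ → Finset (ℕ × (Fin r → Bool)))

/-- The parent of `y` at level `j + 1` along the bit `b`. -/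
def up (j : ℕ) (y : Fin r → Bool) (b : Bool) : Fin r → Bool :=
  Function.update y ⟨j % r, Nat.mod_lt _ hr⟩ b

/-- The pebbling rule. -/
def Rule : Prop :=
  ∀ g j y τ b, Q g (j + 1) y → τ ≤ t g → (j, up hr j y b) ∉ P τ →
    ∃ g', τ ≤ t g' ∧ t g' < t g ∧ Q g' j (up hr j y b)

open Classical in
/-- The nodes of level `j` placed in the time window `[τ, θ)`. -/
noncomputable def Nw (j τ θ : ℕ) : Finset (Fin r → Bool) :=
  {y | ∃ g, τ ≤ t g ∧ t g < θ ∧ Q g j y}

lemma mem_Nw {j τ θ : ℕ} {y : Fin r → Bool} :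
    y ∈ Nw t Q j τ θ ↔ ∃ g, τ ≤ t g ∧ t g < θ ∧ Q g j y := by
  simp [Nw]

/-- The node at height `i` on the path from `x` up to `y`. -/
def mid (i : ℕ) (x y : Fin r → Bool) : Fin r → Bool := fun k => if k.val < i then y k else x k

lemma up_mid (σ i : ℕ) (hi : i < r) (x y : Fin r → Bool) :
    up hr (σ * r + i) (mid (i + 1) x y) (x ⟨i, hi⟩) = mid i x y := by
  have hm : (σ * r + i) % r = i := by
    rw [Nat.mul_comm, Nat.mul_add_mod]
    exact Nat.mod_eq_of_lt hi
  funext k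
  unfold up mid
  by_cases hk : k = ⟨(σ * r + i) % r, Nat.mod_lt _ hr⟩
  · subst hk
    rw [Function.update_self]
    simp [hm]
  · rw [Function.update_of_ne hk]
    have : k.val ≠ i := by
      intro h
      apply hk
      ext
      simp [hm, h]
    by_cases h1 : k.val < i
    · rw [if_pos h1, if_pos (by omega)]
    · rw [if_neg h1, if_neg (by omega)]

lemma path (hR : Rule hr t Q P) (σ τ θ : ℕ) (x y : Fin r → Bool) :
    ∀ i ≤ r, (∀ i' < i, (σ * r + i', mid i' x y) ∉ P τ) → mid i x y ∈ Nw t Q (σ * r + i) τ θ →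
      x ∈ Nw t Q (σ * r) τ θ := by
  intro i
  induction i with
  | zero =>
    intro _ _ h
    have : mid 0 x y = x := by
      funext k
      simp [mid]
    rwa [this] at h
  | succ i ih =>
    intro hi hP h
    apply ih (by omega) fun i' hi' => hP i' (by omega)
    obtain ⟨g, h1, h2, h3⟩ := (mem_Nw t Q).1 h
    have := hR g (σ * r + i) _ τ (x ⟨i, by omega⟩) h3 h1
      (by rw [up_mid hr σ i (by omega)]; exact hP i (by omega))
    rw [up_mid hr σ i (by omega)] at this
    obtain ⟨g', a1, a2, a3⟩ := this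
    exact (mem_Nw t Q).2 ⟨g', a1, by omega, a3⟩

lemma blocked (hR : Rule hr t Q P) (σ τ θ : ℕ) :
    #(Nw t Q (σ * r) τ θ)ᶜ * #(Nw t Q ((σ + 1) * r) τ θ) ≤ #(P τ) * 2 ^ r := by
  classical
  have hex : ∀ p ∈ (Nw t Q (σ * r) τ θ)ᶜ ×ˢ Nw t Q ((σ + 1) * r) τ θ,
      ∃ i, (σ * r + i, mid i p.1 p.2) ∈ P τ := by
    rintro ⟨x, y⟩ hp
    simp only [mem_product, mem_compl] at hp
    by_contra hcon
    push Not at hcon
    apply hp.1
    refine path hr t Q P hR σ τ θ x y r le_rfl (fun i _ => hcon i) ?_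
    have : mid r x y = y := by
      funext k
      simp [mid]
    rw [this, show σ * r + r = (σ + 1) * r by ring]
    exact hp.2
  choose! f hf using hex
  have hc : 2 ^ r = #(univ : Finset (Fin r → Bool)) := by simp
  rw [hc, ← Finset.card_product, ← Finset.card_product]
  refine Finset.card_le_card_of_injOn
    (fun p => ((σ * r + f p, mid (f p) p.1 p.2), mid (f p) p.2 p.1)) ?_ ?_
  · intro p hp
    simp only [coe_product, Set.mem_prod, mem_coe, coe_univ, Set.mem_univ, and_true]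
    exact hf p (by simpa using hp)
  · rintro ⟨x, y⟩ _ ⟨x', y'⟩ _ h
    simp only [Prod.mk.injEq, add_right_inj] at h
    obtain ⟨⟨h1, h2⟩, h3⟩ := h
    rw [← h1] at h2 h3
    refine Prod.ext ?_ ?_ <;> funext k
    · have a2 := congrFun h2 k
      have a3 := congrFun h3 k
      unfold mid at a2 a3
      by_cases hk : k.val < f (x, y)
      · simpa [hk] using a3
      · simpa [hk] using a2
    · have a2 := congrFun h2 k
      have a3 := congrFun h3 k
      unfold mid at a2 a3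
      by_cases hk : k.val < f (x, y)
      · simpa [hk] using a2
      · simpa [hk] using a3

lemma step_card (hR : Rule hr t Q P) (j τ θ : ℕ) :
    #(Nw t Q (j + 1) τ (θ + 1)) ≤ #(Nw t Q (j + 1) τ θ) + 2 * #(P θ) := by
  classical
  have h1 : Nw t Q (j + 1) τ (θ + 1) ⊆
      Nw t Q (j + 1) τ θ ∪ ({y | (j, up hr j y false) ∈ P θ} : Finset (Fin r → Bool)) := by
    intro y hy
    obtain ⟨g, a1, a2, a3⟩ := (mem_Nw t Q).1 hy
    rw [mem_union]
    by_cases h : t g < θ
    · exact Or.inl ((mem_Nw t Q).2 ⟨g, a1, h, a3⟩)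
    · right
      simp only [mem_filter, mem_univ, true_and]
      by_contra hcon
      obtain ⟨g', b1, b2, -⟩ := hR g j y θ false a3 (by omega) hcon
      omega
  have h2 : #({y | (j, up hr j y false) ∈ P θ} : Finset (Fin r → Bool)) ≤
      #(P θ ×ˢ (univ : Finset Bool)) := by
    refine Finset.card_le_card_of_injOn
      (fun y => ((j, up hr j y false), y ⟨j % r, Nat.mod_lt _ hr⟩)) ?_ ?_
    · intro y hy
      simpa using hy
    · intro y _ y' _ h
      simp only [Prod.mk.injEq, true_and] at h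
      funext k
      by_cases hk : k = ⟨j % r, Nat.mod_lt _ hr⟩
      · rw [hk]
        exact h.2
      · have := congrFun h.1 k
        unfold up at this
        rwa [Function.update_of_ne hk, Function.update_of_ne hk] at this
  rw [Finset.card_product, Finset.card_univ, Fintype.card_bool] at h2
  have h3 := Finset.card_le_card h1
  have h4 := Finset.card_union_le (Nw t Q (j + 1) τ θ)
    ({y | (j, up hr j y false) ∈ P θ} : Finset (Fin r → Bool))
  omega

lemma split_card (j τ θ' θ : ℕ) :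
    #(Nw t Q j τ θ) ≤ #(Nw t Q j τ θ') + #(Nw t Q j θ' θ) := by
  classical
  refine le_trans (Finset.card_le_card ?_) (Finset.card_union_le _ _)
  intro y hy
  obtain ⟨g, a1, a2, a3⟩ := (mem_Nw t Q).1 hy
  rw [mem_union]
  by_cases h : t g < θ'
  · exact Or.inl ((mem_Nw t Q).2 ⟨g, a1, h, a3⟩)
  · exact Or.inr ((mem_Nw t Q).2 ⟨g, by omega, a2, a3⟩)

lemma half_of (hR : Rule hr t Q P) {K : ℕ} (hK : ∀ τ, #(P τ) < K) (σ τ θ : ℕ)
    (h : 2 * K ≤ #(Nw t Q ((σ + 1) * r) τ θ)) : 2 ^ r ≤ 2 * #(Nw t Q (σ * r) τ θ) := by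
  classical
  have h1 := blocked hr t Q P hR σ τ θ
  have h2 := Finset.card_add_card_compl (Nw t Q (σ * r) τ θ)
  have h3 : Fintype.card (Fin r → Bool) = 2 ^ r := by simp
  have h4 := hK τ
  have h5 : (2 * #(Nw t Q (σ * r) τ θ)ᶜ) * K ≤ 2 ^ r * K := by
    calc (2 * #(Nw t Q (σ * r) τ θ)ᶜ) * K = #(Nw t Q (σ * r) τ θ)ᶜ * (2 * K) := by ring
      _ ≤ #(Nw t Q (σ * r) τ θ)ᶜ * #(Nw t Q ((σ + 1) * r) τ θ) := by gcongr
      _ ≤ #(P τ) * 2 ^ r := h1
      _ ≤ K * 2 ^ r := by gcongr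
      _ = 2 ^ r * K := by ring
  have h6 := Nat.le_of_mul_le_mul_right h5 (by omega)
  omega

lemma doubling (hR : Rule hr t Q P) {K : ℕ} (hK : ∀ τ, #(P τ) < K) (hm : 12 * K ≤ 2 ^ r) :
    ∀ σ τ θ, 2 ^ r ≤ 2 * #(Nw t Q (σ * r) τ θ) → 2 ^ σ ≤ #{g | τ ≤ t g ∧ t g < θ} := by
  classical
  intro σ
  induction σ with
  | zero =>
    intro τ θ h
    have h0 : 0 < 2 ^ r := by positivity
    obtain ⟨y, hy⟩ := Finset.card_pos.1 (show 0 < #(Nw t Q (0 * r) τ θ) by omega)
    obtain ⟨g, a1, a2, -⟩ := (mem_Nw t Q).1 hy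
    rw [pow_zero]
    exact Finset.card_pos.2 ⟨g, by simp [a1, a2]⟩
  | succ σ ih =>
    intro τ θ h
    have hK0 := hK 0
    have hex : ∃ θ', 2 * K ≤ #(Nw t Q ((σ + 1) * r) τ θ') := ⟨θ, by omega⟩
    have hs := Nat.find_spec hex
    have hle : Nat.find hex ≤ θ := Nat.find_min' hex (by omega)
    have hτ : τ < Nat.find hex := by
      by_contra hcon
      have : Nw t Q ((σ + 1) * r) τ (Nat.find hex) = ∅ := by
        rw [Finset.eq_empty_iff_forall_notMem]
        intro y hy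
        obtain ⟨g, a1, a2, -⟩ := (mem_Nw t Q).1 hy
        omega
      rw [this, card_empty] at hs
      omega
    obtain ⟨θ0, hθ0⟩ : ∃ θ0, Nat.find hex = θ0 + 1 := ⟨Nat.find hex - 1, by omega⟩
    have hmin := Nat.find_min hex (show θ0 < Nat.find hex by omega)
    rw [hθ0] at hs hle hτ
    obtain ⟨j, hj⟩ : ∃ j, (σ + 1) * r = j + 1 := ⟨(σ + 1) * r - 1, by
      have : 0 < (σ + 1) * r := by positivity
      omega⟩
    have hst := step_card hr t Q P hR j τ θ0
    rw [← hj] at hst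
    have hP := hK θ0
    have hsp := split_card t Q ((σ + 1) * r) τ (θ0 + 1) θ
    have e1 := ih τ (θ0 + 1) (half_of hr t Q P hR hK σ τ _ hs)
    have e2 := ih (θ0 + 1) θ (half_of hr t Q P hR hK σ _ θ (by omega))
    have hd : Disjoint ({g | τ ≤ t g ∧ t g < θ0 + 1} : Finset G)
        ({g | θ0 + 1 ≤ t g ∧ t g < θ} : Finset G) := by
      rw [Finset.disjoint_left]
      intro g h1 h2
      simp only [mem_filter, mem_univ, true_and] at h1 h2
      omega
    have hu : ({g | τ ≤ t g ∧ t g < θ0 + 1} : Finset G) ∪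
        ({g | θ0 + 1 ≤ t g ∧ t g < θ} : Finset G) ⊆ ({g | τ ≤ t g ∧ t g < θ} : Finset G) := by
      intro g hg
      simp only [mem_union, mem_filter, mem_univ, true_and] at hg ⊢
      omega
    have := Finset.card_le_card hu
    rw [Finset.card_union_of_disjoint hd] at this
    rw [pow_succ]
    omega

lemma many_gates (hR : Rule hr t Q P) {K : ℕ} (hK : ∀ τ, #(P τ) < K) (hm : 12 * K ≤ 2 ^ r)
    (h0 : P 0 = ∅) {σ : ℕ} {g : G} {y : Fin r → Bool} (hg : Q g ((σ + 1) * r) y) :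
    2 ^ σ ≤ Fintype.card G := by
  classical
  have h1 := blocked hr t Q P hR σ 0 (t g + 1)
  have h2 : 0 < #(Nw t Q ((σ + 1) * r) 0 (t g + 1)) :=
    Finset.card_pos.2 ⟨y, (mem_Nw t Q).2 ⟨g, by omega, by omega, hg⟩⟩
  rw [h0, card_empty, zero_mul, Nat.le_zero, Nat.mul_eq_zero] at h1
  have h3 := Finset.card_add_card_compl (Nw t Q (σ * r) 0 (t g + 1))
  have h4 : Fintype.card (Fin r → Bool) = 2 ^ r := by simp
  exact le_trans (doubling hr t Q P hR hK hm σ 0 (t g + 1) (by omega)) (Finset.card_le_univ _)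

omit [Fintype G] in
lemma many_rounds (hR : Rule hr t Q P) (h0 : P 0 = ∅) : ∀ j g y, Q g j y → j ≤ t g := by
  intro j
  induction j with
  | zero => intro g y _; omega
  | succ j ih =>
    intro g y h
    obtain ⟨g', -, a2, a3⟩ := hR g j y 0 false h (by omega) (by simp [h0])
    have := ih g' _ a3
    omega

end Abstract

/-- A stack of butterfly levels `0, …, D` on the cube of dimension `r`. -/
def bf (D : ℕ) {r : ℕ} (hr : 0 < r) : LG (Fin (D + 1) × (Fin r → Bool)) where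
  par c b := if h : c.1.val = 0 then none
    else some (⟨c.1.val - 1, by have := c.1.isLt; omega⟩, up hr (c.1.val - 1) c.2 b)
  rank c := c.1.val
  rank_par c b p h := by
    by_cases h0 : c.1.val = 0
    · simp [h0] at h
    · rw [dif_neg h0, Option.some.injEq] at h
      subst h
      show c.1.val = c.1.val - 1 + 1
      omega
  sink := (Fin.last D, fun _ => false)
  sink_top c b h := by
    by_cases h0 : c.1.val = 0
    · simp [h0] at h
    · rw [dif_neg h0, Option.some.injEq, Prod.mk.injEq, Fin.ext_iff] at h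
      have := c.1.isLt
      have h1 := h.1
      simp only [Fin.val_last] at h1
      omega

section Concrete

variable {G : Type} (D : ℕ) {r : ℕ} (hr : 0 < r) (t : G → ℕ)
  (Q : G → Fin (D + 1) × (Fin r → Bool) → Prop)

lemma bf_rule : Rule hr t (fun g j y => ∃ h : j < D + 1, Q g (⟨j, h⟩, y))
    (fun τ => (Peb (bf D hr) t Q τ).image fun c => (c.1.val, c.2)) := by
  rintro g j y τ b ⟨hj, hq⟩ hτ hP
  by_contra hcon
  push Not at hcon
  apply hP
  refine Finset.mem_image.2 ⟨(⟨j, by omega⟩, up hr j y b), ?_, rfl⟩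
  refine (mem_Peb _ _ _).2 ⟨g, (⟨j + 1, hj⟩, y), b, hτ, hq, ?_, fun g' a1 a2 => ?_⟩
  · simp [bf]
  · exact hcon g' a1 a2 (by omega)

lemma bf_rounds (h0 : Peb (bf D hr) t Q 0 = ∅) {g : G} (hg : Q g (bf D hr).sink) : D ≤ t g :=
  many_rounds hr t _ _ (bf_rule D hr t Q) (by simp [h0]) D g (fun _ => false)
    ⟨Nat.lt_succ_self D, hg⟩

lemma bf_gates [Fintype G] {σ K : ℕ} (hD : D = (σ + 1) * r) (hm : 12 * K ≤ 2 ^ r)
    (h0 : Peb (bf D hr) t Q 0 = ∅) (hK : ∀ g, #(Peb (bf D hr) t Q (t g)) < K) {g : G}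
    (hg : Q g (bf D hr).sink) : 2 ^ σ ≤ Fintype.card G := by
  refine many_gates hr t _ _ (bf_rule D hr t Q) (K := K) (fun τ => ?_) hm (by simp [h0])
    (g := g) (y := fun _ => false) ?_
  · refine lt_of_le_of_lt Finset.card_image_le ?_
    by_cases hne : (Peb (bf D hr) t Q τ).Nonempty
    · obtain ⟨g', hg'⟩ := peb_subset _ t Q hne
      exact lt_of_le_of_lt (Finset.card_le_card hg') (hK g')
    · rw [Finset.not_nonempty_iff_eq_empty.1 hne, card_empty]
      exact lt_of_le_of_lt (Nat.zero_le _) (hK g)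
  · subst hD
    exact ⟨Nat.lt_succ_self _, hg⟩

end Concrete

end Pool.Agent.MP_1a6d78_lc.Orc

end MrgPart2

-- ======== part 3: formerly Pool.Agent.MP_1a6d78_lc.h66.Bound
section MrgPart3

/-! The hard functions, their circuits and the lower bounds at one input length. -/

namespace Pool.Agent.MP_1a6d78_lc.Orc

open Finset MeasureTheory
open scoped ENNReal

/-- The value of a gate from its argument string and the oracle answer. -/
def evG {n s : ℕ} : Gate n s → List Bool → Bool → Bool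
  | .neg _, l, _ => !(l.getD 0 false)
  | .conj _ _, l, _ => l.getD 0 false && l.getD 1 false
  | .disj _ _, l, _ => l.getD 0 false || l.getD 1 false
  | .ask _, _, b => b

lemma val_eq_evG {n s : ℕ} (α : List Bool → Bool) (x : Fin n → Bool) (v : Fin s → Bool)
    (g : Gate n s) :
    g.val α x v = evG g (g.args.map (Arg.val x v)) (α (g.args.map (Arg.val x v))) := by
  cases g <;> rfl

/-- A circuit on a fixed input as a query system. -/
def qsOf {n : ℕ} (C : Circuit n) (x : Fin n → Bool) (t : Fin C.size → ℕ)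
    (ht : ∀ g h, C.Reads g h → t h < t g) : QS (Fin C.size) where
  t := t
  rd := C.Reads
  qs g v := (C.gate g).args.map (Arg.val x v)
  ev g := evG (C.gate g)
  ar g := (C.gate g).args.length
  rd_lt := ht
  qs_congr g v v' h := by
    apply List.map_congr_left
    intro a ha
    cases a with
    | input i => rfl
    | const b => rfl
    | gate k => exact h k ha
  len g v := List.length_map _

section Hard

variable {V : Type} (Γ : LG V) {ζ e w : ℕ} (code : V × Fin w ↪ (Fin e → Bool))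

/-- The query string: salt, name of the label bit, labels of the two parents. -/
def posL (z : Fin ζ → Bool) (c : V) (a : Bool → Fin w → Bool) (i : Fin w) : List Bool :=
  List.ofFn z ++ (List.ofFn (code (c, i)) ++ (List.ofFn (a false) ++ List.ofFn (a true)))

lemma posL_inj {z z' : Fin ζ → Bool} {c c' : V} {a a' : Bool → Fin w → Bool} {i i' : Fin w}
    (h : posL code z c a i = posL code z' c' a' i') : z = z' ∧ c = c' ∧ a = a' ∧ i = i' := by
  unfold posL at h
  obtain ⟨h1, h⟩ := List.append_inj h (by simp)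
  obtain ⟨h2, h⟩ := List.append_inj h (by simp)
  obtain ⟨h3, h4⟩ := List.append_inj h (by simp)
  have h5 := code.injective (List.ofFn_injective h2)
  simp only [Prod.mk.injEq] at h5
  refine ⟨List.ofFn_injective h1, h5.1, ?_, h5.2⟩
  funext b
  cases b
  · exact List.ofFn_injective h3
  · exact List.ofFn_injective h4

/-- The placement of label bits for the salt `z`. -/
def mkPos (z : Fin ζ → Bool) : Pos V w (ζ + (e + (w + w))) where
  pos := posL code z
  inj _ _ _ _ _ _ h := (posL_inj code h).2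
  len _ _ _ := by simp [posL]

/-- The first `ζ` bits of the input. -/
def saltOf (ζ : ℕ) {n : ℕ} (x : Fin n → Bool) : Fin ζ → Bool :=
  fun i => if h : i.val < n then x ⟨i, h⟩ else false

/-- The hard function: one bit of the label of the sink. -/
noncomputable def hard (ζ : ℕ) (i0 : Fin w) (n : ℕ) (α : List Bool → Bool) (x : Fin n → Bool) :
    Bool :=
  lab Γ (mkPos code (saltOf ζ x)) α Γ.sink i0

open Classical in
lemma one_circuit [Fintype V] {n : ℕ} (hζ : ζ ≤ n) (i0 : Fin w) (s j : ℕ)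
    (I : Finset (List Bool)) (hI : ∀ l : List Bool, l.length ≤ s + (ζ + (e + (w + w))) → l ∈ I)
    (hj : j * (s + Fintype.card V * w) < 2 ^ ζ) (C : Circuit n) (hs : C.size ≤ s)
    (hf : C.FanInLE s) (t : Fin C.size → ℕ) (ht : ∀ g h, C.Reads g h → t h < t g)
    (hC : ∀ x (π : Pos V w (ζ + (e + (w + w)))) β,
      Fails (qsOf C x t ht) Γ π β C.out i0) :
    ∃ B : Finset (List Bool → Bool), 4 ^ j * #B ≤ 3 ^ j * 2 ^ #I ∧
      ∀ α, C.Computes α (hard Γ code ζ i0 n α) → trunc I α ∈ B := by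
  let xz : (Fin ζ → Bool) → Fin n → Bool := fun z i => if h : i.val < ζ then z ⟨i, h⟩ else false
  have hxz : ∀ z, saltOf ζ (xz z) = z := by
    intro z
    funext i
    have : i.val < n := lt_of_lt_of_le i.isLt hζ
    simp [saltOf, xz, this]
  let S : (Fin ζ → Bool) → QS (Fin C.size) := fun z => qsOf C (xz z) t ht
  let suc : (Fin ζ → Bool) → (List Bool → Bool) → Prop :=
    fun z α => (S z).val α C.out = lab Γ (mkPos code z) α Γ.sink i0
  let D : (Fin ζ → Bool) → (List Bool → Bool) → Finset (List Bool) := fun z α =>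
    (univ.image fun g => (S z).qs g ((S z).val α)) ∪
      univ.image fun p : V × Fin w =>
        (mkPos code z).pos p.1 (Γ.arg (lab Γ (mkPos code z) α) p.1) p.2
  have hcong : ∀ z α α', (∀ l ∈ D z α, α' l = α l) →
      (S z).val α' = (S z).val α ∧ lab Γ (mkPos code z) α' = lab Γ (mkPos code z) α := by
    intro z α α' h
    constructor
    · exact (S z).val_congr fun g =>
        h _ (mem_union_left _ (mem_image_of_mem _ (mem_univ g)))
    · exact lab_congr Γ _ fun c i =>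
        h _ (mem_union_right _ (mem_image.2 ⟨(c, i), mem_univ _, rfl⟩))
  have key := salt' (base I) (fun z => {l | ∃ c a i, l = posL code z c a i}) ?_ ?_ suc D
    (s + Fintype.card V * w) ?_ ?_ ?_ j (by simpa using hj)
  · obtain ⟨T, hT1, hT2⟩ := key
    refine ⟨T, le_trans hT1 (Nat.mul_le_mul_left _ (card_base I)), ?_⟩
    · intro α hα
      refine hT2 _ (mem_base.2 fun l hl => by simp [trunc, hl]) fun z => ?_
      obtain ⟨e1, e2⟩ := hcong z α (trunc I α) (by
        intro l hl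
        have : l ∈ I := by
          apply hI
          rcases mem_union.1 hl with hl | hl
          · obtain ⟨g, -, rfl⟩ := mem_image.1 hl
            rw [(S z).len]
            exact le_trans (hf g) (Nat.le_add_right _ _)
          · obtain ⟨p, -, rfl⟩ := mem_image.1 hl
            rw [(mkPos code z).len]
            exact Nat.le_add_left _ _
        simp [trunc, this])
      show (S z).val (trunc I α) C.out = lab Γ (mkPos code z) (trunc I α) Γ.sink i0
      rw [e1, e2]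
      obtain ⟨v, hv1, hv2⟩ := hα (xz z)
      have : v = (S z).val α := (S z).eq_val fun g => (hv1 g).trans (val_eq_evG _ _ _ _)
      rw [← this, hv2, hard, hxz]
  · rintro z z' l ⟨c, a, i, rfl⟩ ⟨c', a', i', h⟩
    exact (posL_inj code h).1
  · intro z α hα α' h
    rw [mem_base] at hα ⊢
    intro l hl
    rw [h l, hα l hl]
    rintro ⟨c, a, i, rfl⟩
    exact hl (hI _ (by rw [show posL code z c a i = (mkPos code z).pos c a i from rfl,
      (mkPos code z).len]; omega))
  · intro z α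
    refine le_trans (Finset.card_union_le _ _) (Nat.add_le_add ?_ ?_)
    · exact le_trans Finset.card_image_le (by simpa using hs)
    · exact le_trans Finset.card_image_le (by simp)
  · intro z α α' h
    obtain ⟨e1, e2⟩ := hcong z α α' h
    refine ⟨by simp only [D, e1, e2], fun hsuc => ?_⟩
    show (S z).val α' C.out = lab Γ (mkPos code z) α' Γ.sink i0
    rw [e1, e2]
    exact hsuc
  · intro z A' hA'
    refine rerand Γ (mkPos code z) A' (fun α hα α' h => hA' α hα α' fun l hl => h l ?_) (suc z) ?_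
    · intro c a i hli
      exact hl ⟨c, a, i, hli⟩
    · intro β
      have := hC (xz z) (mkPos code z) β
      unfold Fails at this
      simp only [suc, lab_mix]
      convert this

open Classical in
lemma lower [Fintype V] {n : ℕ} (hζ : ζ ≤ n) (i0 : Fin w) (s j L : ℕ) (Pr : Circuit n → Prop)
    (hj : j * (s + Fintype.card V * w) < 2 ^ ζ)
    (hcount : 2 ^ L * ((s + 1) * (s * (4 * (s + 1) * (n + 2 + s) ^ s) ^ s)) * 3 ^ j ≤ 4 ^ j)
    (hPr : ∀ C, Pr C → C.size ≤ s → ∃ (t : Fin C.size → ℕ) (ht : ∀ g h, C.Reads g h → t h < t g),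
      ∀ x (π : Pos V w (ζ + (e + (w + w)))) β,
      Fails (qsOf C x t ht) Γ π β C.out i0) :
    coins {α | ∃ C : Circuit n, C.Computes α (hard Γ code ζ i0 n α) ∧ C.size ≤ s ∧ C.FanInLE s ∧
      Pr C} ≤ 2⁻¹ ^ L := by
  set I := (List.finite_length_le Bool (s + (ζ + (e + (w + w))))).toFinset with hI
  have hB : ∀ C : Circuit n, ∃ B : Finset (List Bool → Bool), 4 ^ j * #B ≤ 3 ^ j * 2 ^ #I ∧
      (Pr C → C.size ≤ s → C.FanInLE s →
        ∀ α, C.Computes α (hard Γ code ζ i0 n α) → trunc I α ∈ B) := by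
    intro C
    by_cases h : Pr C ∧ C.size ≤ s ∧ C.FanInLE s
    · obtain ⟨t, ht, hC⟩ := hPr C h.1 h.2.1
      obtain ⟨B, h1, h2⟩ := one_circuit Γ code hζ i0 s j I (fun l hl => by simp [hI, hl]) hj C
        h.2.1 h.2.2 t ht hC
      exact ⟨B, h1, fun _ _ _ => h2⟩
    · exact ⟨∅, by simp, fun h1 h2 h3 => absurd ⟨h1, h2, h3⟩ h⟩
  choose B hB1 hB2 using hB
  obtain ⟨F, hF1, hF2⟩ := circuits n s
  refine coins_le I _ (F.biUnion B) ?_ L ?_
  · rintro α ⟨C, h1, h2, h3, h4⟩
    exact mem_biUnion.2 ⟨C, hF2 C h2 h3, hB2 C h4 h2 h3 α h1⟩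
  · have h1 : (2 ^ L * #(F.biUnion B)) * 4 ^ j ≤ 2 ^ #I * 4 ^ j := by
      calc (2 ^ L * #(F.biUnion B)) * 4 ^ j ≤ (2 ^ L * ∑ C ∈ F, #(B C)) * 4 ^ j := by
            gcongr
            exact Finset.card_biUnion_le
        _ = 2 ^ L * ∑ C ∈ F, 4 ^ j * #(B C) := by rw [← Finset.mul_sum]; ring
        _ ≤ 2 ^ L * ∑ C ∈ F, 3 ^ j * 2 ^ #I :=
            Nat.mul_le_mul_left _ (Finset.sum_le_sum fun C _ => hB1 C)
        _ = (2 ^ L * #F * 3 ^ j) * 2 ^ #I := by simp; ring
        _ ≤ (2 ^ L * ((s + 1) * (s * (4 * (s + 1) * (n + 2 + s) ^ s) ^ s)) * 3 ^ j) * 2 ^ #I := by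
            gcongr
        _ ≤ 4 ^ j * 2 ^ #I := by gcongr
        _ = 2 ^ #I * 4 ^ j := by ring
    exact Nat.le_of_mul_le_mul_right h1 (by positivity)

end Hard

lemma card_reads {n : ℕ} (C : Circuit n) (g : Fin C.size) [DecidablePred (C.Reads g)] :
    #{h | C.Reads g h} ≤ (C.gate g).args.length := by
  classical
  refine le_trans ?_ (List.toFinset_card_le _)
  refine Finset.card_le_card_of_injOn Arg.gate ?_ fun a _ b _ h => Arg.gate.inj h
  intro h hh
  simpa [Circuit.Reads] using hh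

lemma cut_of_width {n : ℕ} (C : Circuit n) (x : Fin n → Bool) (t : Fin C.size → ℕ)
    (ht : ∀ g h, C.Reads g h → t h < t g) {W : ℕ}
    (hW : ∀ i, {g | i < t g ∧ ∃ h, C.Reads g h ∧ t h ≤ i}.ncard ≤ W) (q τ : ℕ) :
    ∃ H, #H ≤ W * (q + 1) ∧ Cut (qsOf C x t ht) q τ H := by
  classical
  set O : Finset (Fin C.size) := {g | τ - 1 < t g ∧ ∃ h, C.Reads g h ∧ t h ≤ τ - 1} with hO
  have hOc : #O ≤ W := by
    have := hW (τ - 1)
    rwa [← Set.ncard_coe_finset, hO, coe_filter_univ]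
  let R : Fin C.size → Finset (Fin C.size) :=
    fun g => if (C.gate g).args.length ≤ q then ({h | C.Reads g h} : Finset (Fin C.size)) else ∅
  refine ⟨O ∪ O.biUnion R, ?_, ?_⟩
  · have h1 : #(O.biUnion R) ≤ #O * q := by
      refine Finset.card_biUnion_le_card_mul _ _ _ fun g _ => ?_
      simp only [R]
      split_ifs with h
      · exact le_trans (card_reads C g) h
      · simp
    have h2 := Finset.card_union_le O (O.biUnion R)
    nlinarith
  · intro g h h1 h2 h3
    have h1' : τ ≤ t g := h1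
    have h3' : t h < τ := h3
    have hg : g ∈ O := by
      simp only [hO, mem_filter, mem_univ, true_and]
      exact ⟨by omega, h, h2, by omega⟩
    refine ⟨fun ha => mem_union_right _ (mem_biUnion.2 ⟨g, hg, ?_⟩), fun _ => mem_union_left _ hg⟩
    have ha' : (C.gate g).args.length ≤ q := ha
    simp only [R, if_pos ha', mem_filter, mem_univ, true_and]
    exact h2

open Classical in
lemma width_instance {n D r σ w q s W K : ℕ} (hr : 0 < r) (i0 : Fin w) (hD : D = (σ + 1) * r)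
    (hm : 12 * K ≤ 2 ^ r) (hσ : s < 2 ^ σ)
    (hw : 8 * (Fintype.card (Fin (D + 1) × (Fin r → Bool)) * s) ≤ 2 ^ w)
    (hK : 8 * s * 2 ^ (W * (q + 1)) ≤ 8 ^ K) (C : Circuit n) (hW : C.WidthLE W) (hs : C.size ≤ s) :
    ∃ (t : Fin C.size → ℕ) (ht : ∀ g h, C.Reads g h → t h < t g),
      ∀ x (π : Pos (Fin (D + 1) × (Fin r → Bool)) w q) β,
      Fails (qsOf C x t ht) (bf D hr) π β C.out i0 := by
  obtain ⟨t, ht, hW⟩ := hW
  refine ⟨t, ht, fun x π β => ?_⟩
  have := single (qsOf C x t ht) (bf D hr) π β C.out i0 (univ.image t) (W * (q + 1)) K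
    (le_trans Finset.card_image_le (by simp)) (fun τ _ => cut_of_width C x t ht hW q τ)
    (le_trans (by rw [Fintype.card_fin]; gcongr) hw)
    (le_trans (by rw [Fintype.card_fin]; gcongr) hK) (by
      intro Q _ h0 hK g hg
      have := bf_gates D hr t Q hD hm h0 (fun g => hK _ (mem_image_of_mem _ (mem_univ g))) hg
      rw [Fintype.card_fin] at this
      omega)
  exact this

open Classical in
lemma depth_instance {n D r w q s d : ℕ} (hr : 0 < r) (i0 : Fin w) (hd : d < D)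
    (hw : 8 * (Fintype.card (Fin (D + 1) × (Fin r → Bool)) * s) ≤ 2 ^ w)
    (C : Circuit n) (hC : C.DepthLE d) (hs : C.size ≤ s) :
    ∃ (t : Fin C.size → ℕ) (ht : ∀ g h, C.Reads g h → t h < t g),
      ∀ x (π : Pos (Fin (D + 1) × (Fin r → Bool)) w q) β,
      Fails (qsOf C x t ht) (bf D hr) π β C.out i0 := by
  obtain ⟨t, hb, ht⟩ := hC
  refine ⟨t, ht, fun x π β => ?_⟩
  have := single (qsOf C x t ht) (bf D hr) π β C.out i0 ∅ 0 (C.size + 1) (by simp) (by simp)
    (le_trans (by rw [Fintype.card_fin]; gcongr) hw) (by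
      rw [Fintype.card_fin, pow_zero, mul_one, pow_succ, mul_comm]
      exact Nat.mul_le_mul_right _ (Nat.lt_pow_self (by norm_num)).le) (by
      intro Q _ h0 _ g hg
      have h1 := bf_rounds D hr t Q h0 hg
      have := (hb g).2
      omega)
  exact this

section Witness

variable {V : Type} [Fintype V] (Γ : LG V) (ζ : ℕ) {e w : ℕ} (code : V × Fin w ↪ (Fin e → Bool))
  (i0 : Fin w) (n : ℕ)

/-- The arguments that carry the label of a parent. -/
noncomputable def parg (c : V) (b : Bool) (i : Fin w) : Arg n (Fintype.card (V × Fin w)) :=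
  match Γ.par c b with
  | none => .const false
  | some p => .gate (Fintype.equivFin (V × Fin w) (p, i))

/-- The arguments of the gate for one label bit. -/
noncomputable def wargs (p : V × Fin w) : List (Arg n (Fintype.card (V × Fin w))) :=
  List.ofFn (fun i : Fin ζ => if h : i.val < n then Arg.input ⟨i, h⟩ else .const false)
    ++ (List.ofFn (fun k => Arg.const (code p k))
    ++ (List.ofFn (parg Γ n p.1 false) ++ List.ofFn (parg Γ n p.1 true)))

/-- The circuit with one oracle gate per label bit. -/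
noncomputable def wit : Circuit n where
  size := Fintype.card (V × Fin w)
  gate g := .ask (wargs Γ ζ code n ((Fintype.equivFin (V × Fin w)).symm g))
  out := Fintype.equivFin (V × Fin w) (Γ.sink, i0)

lemma wit_fanIn : (wit Γ ζ code i0 n).FanInLE (ζ + (e + (w + w))) := by
  intro g
  show (wargs Γ ζ code n _).length ≤ _
  simp [wargs]

lemma wargs_gate {p : V × Fin w} {h : Fin (Fintype.card (V × Fin w))}
    (hr : Arg.gate h ∈ wargs Γ ζ code n p) :
    Γ.rank p.1 = Γ.rank ((Fintype.equivFin (V × Fin w)).symm h).1 + 1 := by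
  have key : ∀ c b i, parg Γ n c b i = Arg.gate h →
      Γ.rank c = Γ.rank ((Fintype.equivFin (V × Fin w)).symm h).1 + 1 := by
    intro c b i hi
    unfold parg at hi
    cases hp : Γ.par c b with
    | none => simp [hp] at hi
    | some p =>
      rw [hp] at hi
      rw [← Arg.gate.inj hi, Equiv.symm_apply_apply]
      exact Γ.rank_par c b p hp
  simp only [wargs, List.mem_append, List.mem_ofFn] at hr
  rcases hr with ⟨i, hi⟩ | ⟨i, hi⟩ | ⟨i, hi⟩ | ⟨i, hi⟩
  · split_ifs at hi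
  · cases hi
  · exact key _ _ _ hi
  · exact key _ _ _ hi

lemma wit_reads {g h : Fin (Fintype.card (V × Fin w))} (hr : (wit Γ ζ code i0 n).Reads g h) :
    Γ.rank ((Fintype.equivFin (V × Fin w)).symm g).1 =
      Γ.rank ((Fintype.equivFin (V × Fin w)).symm h).1 + 1 :=
  wargs_gate Γ ζ code n hr

lemma wit_computes (α : List Bool → Bool) :
    (wit Γ ζ code i0 n).Computes α (hard Γ code ζ i0 n α) := by
  intro x
  set ℓ := lab Γ (mkPos code (saltOf ζ x)) α with hℓ
  let v : Fin (Fintype.card (V × Fin w)) → Bool := fun g =>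
    ℓ ((Fintype.equivFin (V × Fin w)).symm g).1 ((Fintype.equivFin (V × Fin w)).symm g).2
  have hp : ∀ c b, (Arg.val x v ∘ parg Γ n c b) = Γ.arg ℓ c b := by
    intro c b
    funext i
    unfold parg LG.arg
    cases hp : Γ.par c b with
    | none => simp [hp, Arg.val]
    | some p => simp [hp, Arg.val, v]
  have hq : ∀ p : V × Fin w, ℓ p.1 p.2 = α ((wargs Γ ζ code n p).map (Arg.val x v)) := by
    intro p
    refine (congrFun (lab_isLab Γ (mkPos code (saltOf ζ x)) α p.1) p.2).trans ?_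
    show α (posL code _ p.1 (Γ.arg ℓ p.1) p.2) = _
    congr 1
    unfold posL wargs
    simp only [List.map_append, List.map_ofFn, hp]
    congr 2
    funext i
    simp only [saltOf, Function.comp]
    split_ifs <;> rfl
  refine ⟨v, fun g => hq _, ?_⟩
  show ℓ ((Fintype.equivFin (V × Fin w)).symm (Fintype.equivFin (V × Fin w) (Γ.sink, i0))).1
    ((Fintype.equivFin (V × Fin w)).symm (Fintype.equivFin (V × Fin w) (Γ.sink, i0))).2 = _
  rw [Equiv.symm_apply_apply]
  rfl

lemma wit_depth {d : ℕ} (hd : ∀ c, Γ.rank c + 1 ≤ d) : (wit Γ ζ code i0 n).DepthLE d := by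
  refine ⟨fun g => Γ.rank ((Fintype.equivFin (V × Fin w)).symm g).1 + 1,
    fun g => ⟨Nat.le_add_left _ _, hd _⟩, fun g h hr => ?_⟩
  have := wit_reads Γ ζ code i0 n hr
  show _ + 1 < _ + 1
  omega

end Witness

lemma wit_width {D r ζ e w : ℕ} (hr : 0 < r)
    (code : (Fin (D + 1) × (Fin r → Bool)) × Fin w ↪ (Fin e → Bool)) (i0 : Fin w) (n : ℕ) :
    (wit (bf D hr) ζ code i0 n).WidthLE (2 ^ r * w) := by
  set E := Fintype.equivFin ((Fin (D + 1) × (Fin r → Bool)) × Fin w) with hE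
  refine ⟨fun g => (bf D hr).rank (E.symm g).1, fun g h hr' => ?_, fun i => ?_⟩
  · have := wit_reads _ ζ code i0 n hr'
    show (bf D hr).rank (E.symm h).1 < (bf D hr).rank (E.symm g).1
    rw [hE]
    omega
  · have hc : 2 ^ r * w = (Set.univ : Set ((Fin r → Bool) × Fin w)).ncard := by
      simp [Set.ncard_univ]
    rw [hc]
    refine Set.ncard_le_ncard_of_injOn (fun g => ((E.symm g).1.2, (E.symm g).2))
      (fun _ _ => Set.mem_univ _) ?_
    rintro g ⟨a1, h, a2, a3⟩ g' ⟨b1, h', b2, b3⟩ hgg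
    have c1 := wit_reads _ ζ code i0 n a2
    have c2 := wit_reads _ ζ code i0 n b2
    rw [← hE] at c1 c2
    simp only [Prod.mk.injEq] at hgg
    apply E.symm.injective
    refine Prod.ext (Prod.ext (Fin.ext ?_) hgg.1) hgg.2
    show (bf D hr).rank (E.symm g).1 = (bf D hr).rank (E.symm g').1
    simp only at a1 a3 b1 b3
    omega

end Pool.Agent.MP_1a6d78_lc.Orc

end MrgPart3

-- ======== part 4: formerly Pool.Agent.MP_1a6d78_lc.h66.Main
section MrgPart4

/-! Parameters and the two separations for almost every oracle. -/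

namespace Pool.Agent.MP_1a6d78_lc.Orc

open Finset MeasureTheory Filter
open scoped ENNReal

lemma ev_pow (c : ℕ) : ∃ L0, ∀ L ≥ L0, (L + 2) ^ c ≤ 2 ^ L := by
  have h := tendsto_pow_const_div_const_pow_of_one_lt c (r := 2) (by norm_num)
  obtain ⟨N, hN⟩ := eventually_atTop.1 (h.eventually (ge_mem_nhds (show (0 : ℝ) < 1 / 4 by norm_num)))
  refine ⟨N, fun L hL => ?_⟩
  have h1 := hN (L + 2) (by omega)
  rw [div_le_iff₀ (by positivity), pow_add] at h1
  have h2 : (((L + 2 : ℕ) : ℝ)) ^ c ≤ 2 ^ L := by linarith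
  exact_mod_cast h2

lemma count_le {A s n L : ℕ} (hA : 2 ≤ A) (hs : s ≤ A) (hn : n ≤ A) (hL : L ≤ A) :
    2 ^ L * ((s + 1) * (s * (4 * (s + 1) * (n + 2 + s) ^ s) ^ s)) * 3 ^ (24 * A ^ 3) ≤
      4 ^ (24 * A ^ 3) := by
  have h1 : s + 1 ≤ 2 ^ A := le_trans (Nat.succ_le_succ hs) (Nat.lt_two_pow_self)
  have h2 : n + 2 + s ≤ 2 ^ (3 * A) := le_trans (by omega) (Nat.lt_two_pow_self (n := 3 * A)).le
  have h3 : (n + 2 + s) ^ s ≤ 2 ^ (3 * A * A) := by
    rw [pow_mul]
    exact le_trans (Nat.pow_le_pow_left h2 _) (Nat.pow_le_pow_right (by positivity) hs)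
  have h4 : 4 * (s + 1) * (n + 2 + s) ^ s ≤ 2 ^ (2 + A + 3 * A * A) := by
    rw [pow_add, pow_add]
    exact Nat.mul_le_mul (Nat.mul_le_mul le_rfl h1) h3
  have h5 : (4 * (s + 1) * (n + 2 + s) ^ s) ^ s ≤ 2 ^ ((2 + A + 3 * A * A) * A) := by
    rw [pow_mul]
    exact le_trans (Nat.pow_le_pow_left h4 _) (Nat.pow_le_pow_right (by positivity) hs)
  have h6 : 2 ^ L * ((s + 1) * (s * (4 * (s + 1) * (n + 2 + s) ^ s) ^ s)) ≤
      2 ^ (A + (A + (A + (2 + A + 3 * A * A) * A))) := by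
    rw [pow_add, pow_add, pow_add]
    exact Nat.mul_le_mul (Nat.pow_le_pow_right (by norm_num) hL)
      (Nat.mul_le_mul h1 (Nat.mul_le_mul (by omega) h5))
  have h7 : A + (A + (A + (2 + A + 3 * A * A) * A)) ≤ 8 * A ^ 3 := by
    have : 2 * A ≤ A * A := Nat.mul_le_mul_right _ hA
    have : 2 * (A * A) ≤ A * (A * A) := Nat.mul_le_mul_right _ hA
    nlinarith
  calc _ ≤ 2 ^ (8 * A ^ 3) * 3 ^ (24 * A ^ 3) :=
        Nat.mul_le_mul_right _ (le_trans h6 (Nat.pow_le_pow_right (by norm_num) h7))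
    _ = (2 * 3 ^ 3) ^ (8 * A ^ 3) := by
        rw [mul_pow, ← pow_mul]
        congr 2
        ring
    _ ≤ (4 ^ 3) ^ (8 * A ^ 3) := Nat.pow_le_pow_left (by norm_num) _
    _ = 4 ^ (24 * A ^ 3) := by
        rw [← pow_mul]
        congr 1
        ring

/-- Number of levels of the deep butterfly stack. -/
def D1 (L : ℕ) : ℕ := ((L + 2) ^ 2 + 1) * (L + 1)

lemma D1_le (L : ℕ) : D1 L + 1 ≤ (L + 2) ^ 3 := by
  unfold D1
  nlinarith [Nat.zero_le L, Nat.zero_le (L ^ 2), Nat.zero_le (L ^ 3)]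

lemma pow_le_two (L c : ℕ) : (L + 2) ^ c ≤ 2 ^ (c * (L + 2)) := by
  rw [mul_comm, pow_mul]
  exact Nat.pow_le_pow_left (Nat.lt_two_pow_self).le _

lemma card1 (L : ℕ) : Fintype.card (Fin (D1 L + 1) × (Fin (L + 1) → Bool)) * (L + 2) ^ 2 ≤
    (L + 2) ^ 5 * 2 ^ (L + 1) := by
  simp only [Fintype.card_prod, Fintype.card_fin, Fintype.card_fun, Fintype.card_bool]
  calc (D1 L + 1) * 2 ^ (L + 1) * (L + 2) ^ 2 ≤ (L + 2) ^ 3 * 2 ^ (L + 1) * (L + 2) ^ 2 := by
        gcongr
        exact D1_le L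
    _ = _ := by ring

lemma card2 (L : ℕ) : Fintype.card (Fin (2 ^ L + 1) × (Fin 1 → Bool)) * (L + 2) ^ 2 ≤
    (L + 2) ^ 5 * 2 ^ (L + 1) := by
  simp only [Fintype.card_prod, Fintype.card_fin, Fintype.card_fun, Fintype.card_bool]
  have h1 : 2 ^ L + 1 ≤ 2 ^ (L + 1) := by
    have : 0 < 2 ^ L := by positivity
    rw [pow_succ]
    omega
  have h2 : 2 ^ 1 ≤ (L + 2) ^ 3 :=
    le_trans (by norm_num) (Nat.pow_le_pow_left (show 2 ≤ L + 2 by omega) 3)
  calc (2 ^ L + 1) * 2 ^ 1 * (L + 2) ^ 2 ≤ 2 ^ (L + 1) * (L + 2) ^ 3 * (L + 2) ^ 2 := by gcongr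
    _ = _ := by ring

lemma big_le (L : ℕ) : (L + 2) ^ 5 * 2 ^ (L + 1) ≤ 2 ^ (6 * (L + 2)) := by
  calc (L + 2) ^ 5 * 2 ^ (L + 1) ≤ 2 ^ (5 * (L + 2)) * 2 ^ (L + 2) :=
        Nat.mul_le_mul (pow_le_two L 5) (Nat.pow_le_pow_right (by norm_num) (by omega))
    _ = _ := by rw [← pow_add]; congr 1; ring

lemma big_le_poly (n : ℕ) : (Nat.log 2 n + 2) ^ 5 * 2 ^ (Nat.log 2 n + 1) ≤ poly 7 n := by
  have h1 : Nat.log 2 n + 2 ≤ n + 2 := Nat.add_le_add_right (Nat.log_le_self 2 n) 2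
  have h2 : 2 ^ Nat.log 2 n ≤ n + 2 := by
    rcases Nat.eq_zero_or_pos n with rfl | h
    · simp
    · exact le_trans (Nat.pow_log_le_self 2 h.ne') (by omega)
  unfold poly
  calc (Nat.log 2 n + 2) ^ 5 * 2 ^ (Nat.log 2 n + 1)
      = (Nat.log 2 n + 2) ^ 5 * (2 ^ Nat.log 2 n * 2) := by rw [pow_succ 2]
    _ ≤ (n + 2) ^ 5 * ((n + 2) * (n + 2)) := by gcongr; omega
    _ = _ := by ring

lemma q_le (L : ℕ) : (L + 2) ^ 2 + (6 * (L + 2) + ((L + 2) ^ 2 + (L + 2) ^ 2)) ≤ (L + 2) ^ 7 := by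
  have h1 : 2 ^ 5 ≤ (L + 2) ^ 5 := Nat.pow_le_pow_left (by omega) 5
  have h2 : (L + 2) ^ 7 = (L + 2) ^ 5 * (L + 2) ^ 2 := by ring
  nlinarith [Nat.zero_le L, Nat.zero_le (L ^ 2)]

/-- Names for the label bits. -/
noncomputable def mkCode {V : Type} [Fintype V] (L : ℕ)
    (h : Fintype.card V * (L + 2) ^ 2 ≤ (L + 2) ^ 5 * 2 ^ (L + 1)) :
    V × Fin ((L + 2) ^ 2) ↪ (Fin (6 * (L + 2)) → Bool) :=
  Classical.choice (Function.Embedding.nonempty_of_card_le (by
    simpa using le_trans h (big_le L)))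

/-- The first label bit. -/
def bit0 (L : ℕ) : Fin ((L + 2) ^ 2) := ⟨0, by positivity⟩

lemma lower_at {V : Type} [Fintype V] (Γ : LG V) {L n k : ℕ} (hn : n = 2 ^ L)
    (h : Fintype.card V * (L + 2) ^ 2 ≤ (L + 2) ^ 5 * 2 ^ (L + 1))
    (hL : 4 * k + 40 ≤ L) (hL2 : (L + 2) ^ 2 ≤ 2 ^ L) (Pr : Circuit n → Prop)
    (hPr : poly k n < 2 ^ (L + 2) ^ 2 → 8 * (Fintype.card V * poly k n) ≤ 2 ^ (L + 2) ^ 2 →
      poly k n ≤ 2 ^ ((k + 6) * (L + 2)) → ∀ C, Pr C → C.size ≤ poly k n →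
      ∃ (t : Fin C.size → ℕ) (ht : ∀ g h, C.Reads g h → t h < t g),
      ∀ x (π : Pos V ((L + 2) ^ 2) ((L + 2) ^ 2 + (6 * (L + 2) + ((L + 2) ^ 2 + (L + 2) ^ 2)))) β,
      Fails (qsOf C x t ht) Γ π β C.out (bit0 L)) :
    coins {α | ∃ C : Circuit n, C.Computes α (hard Γ (mkCode L h) ((L + 2) ^ 2) (bit0 L) n α) ∧
      C.size ≤ poly k n ∧ C.FanInLE (poly k n) ∧ Pr C} ≤ 2⁻¹ ^ L := by
  set a := (k + 6) * (L + 2) with ha
  have hs : poly k n ≤ 2 ^ a := by
    unfold poly
    have h1 : n + 2 ≤ 2 ^ (L + 2) := by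
      have : 0 < 2 ^ L := by positivity
      rw [hn, pow_add]
      omega
    calc (n + 2) ^ k ≤ (2 ^ (L + 2)) ^ k := Nat.pow_le_pow_left h1 _
      _ = 2 ^ ((L + 2) * k) := by rw [pow_mul]
      _ ≤ 2 ^ a := Nat.pow_le_pow_right (by norm_num) (by rw [ha]; nlinarith)
  have hLa : L + 2 ≤ a := by rw [ha]; nlinarith
  have hna : n ≤ 2 ^ a := by rw [hn]; exact Nat.pow_le_pow_right (by norm_num) (by omega)
  have hV : Fintype.card V * (L + 2) ^ 2 ≤ 2 ^ a :=
    le_trans h (le_trans (big_le L) (Nat.pow_le_pow_right (by norm_num) (by rw [ha]; nlinarith)))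
  have hV' : Fintype.card V ≤ 2 ^ a := le_trans (Nat.le_mul_of_pos_right _ (by positivity)) hV
  have hsq : 4 * a + 6 < (L + 2) ^ 2 := by rw [ha]; nlinarith
  have hA : 2 ≤ 2 ^ a := le_trans (by omega) (Nat.lt_two_pow_self (n := a)).le
  refine lower Γ (mkCode L h) (by rw [hn]; exact hL2) (bit0 L) (poly k n) (24 * (2 ^ a) ^ 3) L Pr
    ?_ (count_le hA hs hna (le_trans (by omega) (Nat.lt_two_pow_self (n := a)).le))
    (hPr ?_ ?_ hs)
  · calc 24 * (2 ^ a) ^ 3 * (poly k n + Fintype.card V * (L + 2) ^ 2)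
        ≤ 32 * (2 ^ a) ^ 3 * (2 ^ a + 2 ^ a) := by gcongr; norm_num
      _ = 2 ^ (4 * a + 6) := by ring
      _ < _ := Nat.pow_lt_pow_right (by norm_num) hsq
  · exact lt_of_le_of_lt hs (Nat.pow_lt_pow_right (by norm_num) (by omega))
  · calc 8 * (Fintype.card V * poly k n) ≤ 8 * (2 ^ a * 2 ^ a) := by gcongr
      _ = 2 ^ (2 * a + 3) := by ring
      _ ≤ _ := Nat.pow_le_pow_right (by norm_num) (by omega)

lemma null_of {E : Set (List Bool → Bool)} {L0 : ℕ} (h : ∀ L ≥ L0, coins E ≤ 2⁻¹ ^ L) :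
    coins E = 0 := by
  have ht : Tendsto (fun L : ℕ => (2⁻¹ : ℝ≥0∞) ^ L) atTop (nhds 0) :=
    ENNReal.tendsto_pow_atTop_nhds_zero_of_lt_one (by norm_num)
  exact le_antisymm (ge_of_tendsto ht (eventually_atTop.2 ⟨L0, h⟩)) zero_le

/-- The shallow circuits. -/
noncomputable def shallow (n : ℕ) : Circuit n :=
  wit (bf (D1 (Nat.log 2 n)) (Nat.succ_pos (Nat.log 2 n))) ((Nat.log 2 n + 2) ^ 2)
    (mkCode _ (card1 _)) (bit0 _) n

/-- The function computed by the shallow circuits. -/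
noncomputable def shallowF (α : List Bool → Bool) (n : ℕ) : (Fin n → Bool) → Bool :=
  hard (bf (D1 (Nat.log 2 n)) (Nat.succ_pos (Nat.log 2 n))) (mkCode _ (card1 _))
    ((Nat.log 2 n + 2) ^ 2) (bit0 _) n α

/-- The narrow circuits. -/
noncomputable def narrow (n : ℕ) : Circuit n :=
  wit (bf (2 ^ Nat.log 2 n) Nat.one_pos) ((Nat.log 2 n + 2) ^ 2) (mkCode _ (card2 _)) (bit0 _) n

/-- The function computed by the narrow circuits. -/
noncomputable def narrowF (α : List Bool → Bool) (n : ℕ) : (Fin n → Bool) → Bool :=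
  hard (bf (2 ^ Nat.log 2 n) Nat.one_pos) (mkCode _ (card2 _)) ((Nat.log 2 n + 2) ^ 2) (bit0 _) n α

lemma shallow_bounds (n : ℕ) : (shallow n).size ≤ poly 7 n ∧ (shallow n).FanInLE (plog 7 n) ∧
    (shallow n).DepthLE (plog 7 n) := by
  refine ⟨le_trans ?_ (le_trans (card1 _) (big_le_poly n)),
    fun g => le_trans (wit_fanIn _ _ _ _ _ g) (q_le _), wit_depth _ _ _ _ _ fun c => ?_⟩
  · show Fintype.card _ ≤ _
    rw [Fintype.card_prod, Fintype.card_fin]
  · have h1 : c.1.val + 1 ≤ D1 (Nat.log 2 n) + 1 := c.1.isLt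
    exact le_trans h1 (le_trans (D1_le _) (Nat.pow_le_pow_right (by omega) (by norm_num)))

lemma narrow_bounds (n : ℕ) : (narrow n).size ≤ poly 7 n ∧ (narrow n).FanInLE (plog 7 n) ∧
    (narrow n).WidthLE (plog 7 n) := by
  refine ⟨le_trans ?_ (le_trans (card2 _) (big_le_poly n)),
    fun g => le_trans (wit_fanIn _ _ _ _ _ g) (q_le _), ?_⟩
  · show Fintype.card _ ≤ _
    rw [Fintype.card_prod, Fintype.card_fin]
  · obtain ⟨lev, h1, h2⟩ := wit_width (ζ := (Nat.log 2 n + 2) ^ 2) Nat.one_pos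
      (mkCode _ (card2 (Nat.log 2 n))) (bit0 _) n
    refine ⟨lev, h1, fun i => le_trans (h2 i) ?_⟩
    have := q_le (Nat.log 2 n)
    unfold plog
    omega

lemma shallow_hard : ∀ᵐ α ∂coins, ¬ SC α (shallowF α) := by
  have : ∀ k, ∀ᵐ α ∂coins, ¬ ∀ n, ∃ C : Circuit n, C.Computes α (shallowF α n) ∧
      C.size ≤ poly k n ∧ C.FanInLE (poly k n) ∧ C.WidthLE (plog k n) := by
    intro k
    rw [ae_iff]
    obtain ⟨L0, hL0⟩ := ev_pow (k + 13)
    refine null_of (L0 := L0 + (4 * k + 40)) fun L hL => ?_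
    have hp := hL0 L (by omega)
    have key : ∀ n, Nat.log 2 n = L → n = 2 ^ L → coins {α | ∃ C : Circuit n,
        C.Computes α (shallowF α n) ∧ C.size ≤ poly k n ∧ C.FanInLE (poly k n) ∧
          C.WidthLE (plog k n)} ≤ 2⁻¹ ^ L := by
      intro n hlog hn
      subst hlog
      set L := Nat.log 2 n with hLdef
      refine lower_at _ hn (card1 L) (by omega)
        (le_trans (Nat.pow_le_pow_right (by omega) (by omega)) hp) _ ?_
      intro h1 h2 h3 C hC hs
      have hq := q_le L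
      set q := (L + 2) ^ 2 + (6 * (L + 2) + ((L + 2) ^ 2 + (L + 2) ^ 2)) with hqdef
      have := width_instance (σ := (L + 2) ^ 2) (q := q) (D := D1 L) (r := L + 1)
        (K := plog k n * (q + 1) + (k + 6) * (L + 2) + 1) (Nat.succ_pos L) (bit0 L) rfl ?_ h1 h2 ?_
        C hC hs
      · exact this
      · have e1 : plog k n * (q + 1) ≤ 2 * (L + 2) ^ (k + 7) := by
          have : 0 < (L + 2) ^ 7 := by positivity
          calc plog k n * (q + 1) ≤ (L + 2) ^ k * (2 * (L + 2) ^ 7) :=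
                Nat.mul_le_mul le_rfl (by omega)
            _ = _ := by ring
        have e2 : (k + 6) * (L + 2) + 1 ≤ (L + 2) ^ (k + 7) :=
          le_trans (by nlinarith) (Nat.pow_le_pow_right (by omega) (show 2 ≤ k + 7 by omega))
        have e3 : 64 * (L + 2) ^ (k + 7) ≤ (L + 2) ^ (k + 13) := by
          have : 2 ^ 6 ≤ (L + 2) ^ 6 := Nat.pow_le_pow_left (by omega) 6
          calc 64 * (L + 2) ^ (k + 7) ≤ (L + 2) ^ 6 * (L + 2) ^ (k + 7) :=
                Nat.mul_le_mul_right _ this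
            _ = _ := by ring
        have e4 : 2 ^ L ≤ 2 ^ L.succ := Nat.pow_le_pow_right (by norm_num) (Nat.le_succ L)
        omega
      · calc 8 * poly k n * 2 ^ (plog k n * (q + 1))
            ≤ 8 * 8 ^ ((k + 6) * (L + 2)) * 8 ^ (plog k n * (q + 1)) :=
              Nat.mul_le_mul (Nat.mul_le_mul le_rfl
                (le_trans h3 (Nat.pow_le_pow_left (by norm_num) _)))
                (Nat.pow_le_pow_left (by norm_num) _)
          _ = _ := by ring
    refine le_trans (measure_mono ?_) (key (2 ^ L) (Nat.log_pow (by norm_num) L) rfl)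
    intro α hα
    simp only [Set.mem_setOf_eq, not_not] at hα
    exact hα _
  filter_upwards [ae_all_iff.2 this] with α hα
  rintro ⟨k, hk⟩
  exact hα k hk

lemma narrow_hard : ∀ᵐ α ∂coins, ¬ NC α (narrowF α) := by
  have : ∀ k, ∀ᵐ α ∂coins, ¬ ∀ n, ∃ C : Circuit n, C.Computes α (narrowF α n) ∧
      C.size ≤ poly k n ∧ C.FanInLE (poly k n) ∧ C.DepthLE (plog k n) := by
    intro k
    rw [ae_iff]
    obtain ⟨L0, hL0⟩ := ev_pow (k + 13)
    refine null_of (L0 := L0 + (4 * k + 40)) fun L hL => ?_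
    have hp := hL0 L (by omega)
    have key : ∀ n, Nat.log 2 n = L → n = 2 ^ L → coins {α | ∃ C : Circuit n,
        C.Computes α (narrowF α n) ∧ C.size ≤ poly k n ∧ C.FanInLE (poly k n) ∧
          C.DepthLE (plog k n)} ≤ 2⁻¹ ^ L := by
      intro n hlog hn
      subst hlog
      set L := Nat.log 2 n with hLdef
      refine lower_at _ hn (card2 L) (by omega)
        (le_trans (Nat.pow_le_pow_right (by omega) (by omega)) hp) _ ?_
      intro _ h2 _ C hC hs
      have := depth_instance (q := (L + 2) ^ 2 + (6 * (L + 2) + ((L + 2) ^ 2 + (L + 2) ^ 2)))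
        Nat.one_pos (bit0 L) (D := 2 ^ L) (d := plog k n)
        (lt_of_lt_of_le (Nat.pow_lt_pow_right (by omega) (by omega)) hp) h2 C hC hs
      exact this
    refine le_trans (measure_mono ?_) (key (2 ^ L) (Nat.log_pow (by norm_num) L) rfl)
    intro α hα
    simp only [Set.mem_setOf_eq, not_not] at hα
    exact hα _
  filter_upwards [ae_all_iff.2 this] with α hα
  rintro ⟨k, hk⟩
  exact hα k hk

end Pool.Agent.MP_1a6d78_lc.Orc

end MrgPart4

-- marker of a merged file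
example : 731051 + 30903 = 731051 + 30903 := rfl
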